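import Pool.Agent.Q282.CL.Brown

/-!
# Joint limit laws: vectors of sums over the primes and correlated Brownian motions
-/

set_option autoImplicit false
set_option linter.unusedSectionVars false

namespace Q282.MJ

open Finset Filter MeasureTheory ProbabilityTheory
open BrownianReal
open scoped NNReal Topology
open Q282.BP (bx mem_bx card_bx PP loglog_tendsto)
open Q282.GK (kbox mean_res)
open Q282.CL

section wt

variable {ι : Type} [Fintype ι]

lemma wt_mul {X : ℕ} (a : ι → ℕ) (ha : ∀ s, a s ≤ X) (x y : ι → ℝ) (G : ℕ → ℝ) :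
    ∑ p ∈ PP X, wt a x p * wt a y p * G p = ∑ s, ∑ t, x s * y t * ∑ p ∈ PP (min (a s) (a t)), G p := by
  have h1 : ∀ p, wt a x p * wt a y p * G p = ∑ s, ∑ t, x s * y t * if p ≤ min (a s) (a t) then G p else 0 := by
    intro p
    unfold wt
    rw [sum_mul_sum, sum_mul]
    refine sum_congr rfl fun s _ => ?_
    rw [sum_mul]
    refine sum_congr rfl fun t _ => ?_
    by_cases h1 : p ≤ a s
    · by_cases h2 : p ≤ a t
      · rw [if_pos h1, if_pos h2, if_pos (le_min h1 h2)]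
      · have h3 : ¬ p ≤ min (a s) (a t) := fun h => h2 (h.trans (min_le_right _ _))
        rw [if_neg h2, if_neg h3]
        ring
    · have h3 : ¬ p ≤ min (a s) (a t) := fun h => h1 (h.trans (min_le_left _ _))
      rw [if_neg h1, if_neg h3]
      ring
  rw [sum_congr rfl fun p _ => h1 p, sum_comm]
  refine sum_congr rfl fun s _ => ?_
  rw [sum_comm]
  refine sum_congr rfl fun t _ => ?_
  have h2 : ∑ p ∈ PP (min (a s) (a t)), G p = ∑ p ∈ PP X, if p ≤ min (a s) (a t) then G p else 0 := by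
    rw [← PP_filter ((min_le_left _ _).trans (ha s))]
    exact sum_filter _ _
  rw [h2, mul_sum]

end wt

section gauss

variable {J : Type} [Fintype J] [DecidableEq J] (R : Matrix J J ℝ) (I : Finset ℝ≥0)

/-- the covariance matrix of correlated Brownian motions at the times of `I`: `R j k * min s t` -/
def cvm : Matrix (J × I) (J × I) ℝ := Matrix.kroneckerMap (fun a b => a * b) R (covMatrix I)

variable {R}

lemma cvm_psd (hR : R.PosSemidef) : (cvm R I).PosSemidef := hR.kronecker (posSemidef_covMatrix I)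

lemma cvm_apply (a b : J × I) : cvm R I a b = R a.1 b.1 * ((min (a.2 : ℝ≥0) (b.2 : ℝ≥0) : ℝ≥0) : ℝ) := rfl

/-- the law -/
noncomputable def nuJ (R : Matrix J J ℝ) (I : Finset ℝ≥0) : ProbabilityMeasure (EuclideanSpace ℝ (J × I)) :=
  ⟨multivariateGaussian 0 (cvm R I), inferInstance⟩

lemma chr_nuJ (hR : R.PosSemidef) (x : EuclideanSpace ℝ (J × I)) :
    charFun (nuJ R I : Measure (EuclideanSpace ℝ (J × I))) x =
      Complex.exp ((-((∑ a : J × I, ∑ b : J × I, x a * x b * (R a.1 b.1 * ((min (a.2 : ℝ≥0) (b.2 : ℝ≥0) : ℝ≥0) : ℝ))) / 2) : ℝ) : ℂ) := by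
  show charFun (multivariateGaussian 0 (cvm R I)) x = _
  rw [charFun_multivariateGaussian (cvm_psd I hR)]
  congr 1
  rw [inner_zero_right, Complex.ofReal_zero, zero_mul, zero_sub]
  have h1 : x.ofLp ⬝ᵥ (cvm R I).mulVec x.ofLp = ∑ a : J × I, ∑ b : J × I, x a * x b * (R a.1 b.1 * ((min (a.2 : ℝ≥0) (b.2 : ℝ≥0) : ℝ≥0) : ℝ)) := by
    unfold dotProduct Matrix.mulVec dotProduct
    refine sum_congr rfl fun a _ => ?_
    rw [mul_sum]
    refine sum_congr rfl fun b _ => ?_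
    show x a * (cvm R I a b * x b) = _
    rw [cvm_apply]
    ring
  rw [h1]
  push_cast
  rfl

/-- the orthant -/
def orthJ (x : J × I → ℝ) : Set (EuclideanSpace ℝ (J × I)) := {y | ∀ a, y a ≤ x a}

lemma orthJ_closed (x : J × I → ℝ) : IsClosed (orthJ I x) := by
  unfold orthJ
  simp only [Set.ofPred_forall]
  refine isClosed_iInter fun s => ?_
  exact isClosed_le (by fun_prop) continuous_const

/-- the distribution function of the Gaussian vector with the covariances `R j k * min s t` -/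
noncomputable def WJ (R : Matrix J J ℝ) (I : Finset ℝ≥0) (x : J × I → ℝ) : ℝ :=
  ((nuJ R I : Measure (EuclideanSpace ℝ (J × I))) (orthJ I x)).toReal

lemma orthJ_frontier (hR : R.PosSemidef) (hd : ∀ j, 0 < R j j) (hI : ∀ s ∈ I, 0 < s) (x : J × I → ℝ) :
    (nuJ R I : Measure (EuclideanSpace ℝ (J × I))) (frontier (orthJ I x)) = 0 := by
  have h1 : frontier (orthJ I x) ⊆ ⋃ a : J × I, {y : EuclideanSpace ℝ (J × I) | y a = x a} := by
    intro y hy
    rw [(orthJ_closed I x).frontier_eq] at hy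
    by_contra hcon
    simp only [Set.mem_iUnion, Set.mem_ofPred_eq, not_exists] at hcon
    refine hy.2 ?_
    rw [mem_interior]
    refine ⟨{y : EuclideanSpace ℝ (J × I) | ∀ a, y a < x a}, fun z hz a => (hz a).le, ?_, fun a => lt_of_le_of_ne (hy.1 a) (hcon a)⟩
    simp only [Set.ofPred_forall]
    exact isOpen_iInter_of_finite fun s => isOpen_lt (by fun_prop) continuous_const
  refine measure_mono_null h1 (measure_iUnion_null fun a => ?_)
  have h2 := measurePreserving_eval_multivariateGaussian (μ := 0) (cvm_psd I hR) (i := a)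
  have h3 := h2.measure_preimage (s := {x a}) (measurableSet_singleton _).nullMeasurableSet
  have h4 : (0 : ℝ) < cvm R I a a := by
    rw [cvm_apply, min_self]
    exact mul_pos (hd a.1) (by exact_mod_cast hI a.2 a.2.2)
  have h5 : (cvm R I a a).toNNReal ≠ 0 := (Real.toNNReal_pos.2 h4).ne'
  have := nullSingletonClass_gaussianReal (μ := (0 : EuclideanSpace ℝ (J × I)) a) h5
  rw [measure_singleton] at h3
  exact h3

end gauss

section main

variable {κ : Type} [Fintype κ] [DecidableEq κ]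

/-- the covariance -/
noncomputable def cv (H H' : (p : ℕ) → (κ → ZMod p) → ℝ) (p : ℕ) : ℝ := mn (fun p u => H p u * H' p u) p - mn H p * mn H' p

/-- the data -/
structure DatJ (κ : Type) [Fintype κ] [DecidableEq κ] (J : Type) (B : ℝ) (κ₀ : J → ℝ) (R : Matrix J J ℝ) (M : ℝ) where
  /-- the length -/
  X : ℕ
  /-- the corner -/
  N : κ → ℤ
  /-- the sides -/
  L : κ → ℕ
  /-- the local functions -/
  H : J → (p : ℕ) → (κ → ZMod p) → ℝ
  /-- the partial sums -/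
  F : J → ℕ → (κ → ℤ) → ℝ
  hX : 16 ≤ X
  hL : ∀ i, (X : ℝ) ^ 5 ≤ L i
  hH : ∀ j, ∀ p : ℕ, p.Prime → ∀ u, |H j p u| ≤ B / Real.sqrt p
  h2 : ∀ j, ∀ Y : ℕ, 3 ≤ Y → |∑ p ∈ PP Y, mn (H j) p - κ₀ j * Real.log (Real.log Y)| ≤ M
  h3 : ∀ j k, ∀ Y : ℕ, 3 ≤ Y → |∑ p ∈ PP Y, cv (H j) (H k) p - R j k * Real.log (Real.log Y)| ≤ M
  hF : ∀ j, ∀ Y : ℕ, 3 ≤ Y → Y ≤ X → av (fun t : kbox N L => |F j Y t - ∑ p ∈ PP Y, H j p (fun i => ((t : κ → ℤ) i : ZMod p))|) ≤ M

variable {J : Type} [Fintype J] [DecidableEq J] {B M : ℝ} {κ₀ : J → ℝ} {R : Matrix J J ℝ}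

lemma DatJ.pos (b : DatJ κ J B κ₀ R M) (i : κ) : 0 < b.L i := by
  have h1 := b.hL i
  have h2 : (0 : ℝ) < (b.X : ℝ) ^ 5 := by
    have : (0 : ℝ) < b.X := by
      have := b.hX
      exact_mod_cast (by omega : 0 < b.X)
    positivity
  exact_mod_cast h2.trans_le h1

instance (b : DatJ κ J B κ₀ R M) : Nonempty (kbox b.N b.L) := kbox_nonempty b.pos

/-- the vector -/
noncomputable def DatJ.vec (b : DatJ κ J B κ₀ R M) (I : Finset ℝ≥0) (t : κ → ℤ) : EuclideanSpace ℝ (J × I) :=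
  WithLp.toLp 2 fun a : J × I => (b.F a.1 (tm b.X (a.2 : ℝ≥0)) t - κ₀ a.1 * ((a.2 : ℝ≥0) : ℝ) * Real.log (Real.log b.X)) /
    Real.sqrt (Real.log (Real.log b.X))

/-- the weighted local function -/
noncomputable def HJ (H : J → (p : ℕ) → (κ → ZMod p) → ℝ) (w : J → ℕ → ℝ) (p : ℕ) (u : κ → ZMod p) : ℝ := ∑ j, w j p * H j p u

lemma mn_HJ (H : J → (p : ℕ) → (κ → ZMod p) → ℝ) (w : J → ℕ → ℝ) (p : ℕ) [hp : Fact p.Prime] :
    mn (HJ H w) p = ∑ j, w j p * mn (H j) p := by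
  rw [mn_eq]
  have h1 : HJ H w p = fun u => ∑ j, w j p * H j p u := rfl
  rw [h1, av_sum]
  refine sum_congr rfl fun j _ => ?_
  rw [av_mul, mn_eq]

lemma vr_HJ (H : J → (p : ℕ) → (κ → ZMod p) → ℝ) (w : J → ℕ → ℝ) (p : ℕ) [hp : Fact p.Prime] :
    vr (HJ H w) p = ∑ j, ∑ k, w j p * w k p * cv (H j) (H k) p := by
  unfold vr
  rw [mn_HJ, mn_eq (fun p u => HJ H w p u ^ 2)]
  have h1 : (fun u => HJ H w p u ^ 2) = fun u => ∑ j, ∑ k, (w j p * w k p) * (H j p u * H k p u) := by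
    funext u
    unfold HJ
    rw [sq, sum_mul_sum]
    exact sum_congr rfl fun j _ => sum_congr rfl fun k _ => by ring
  rw [h1, av_sum, sq, sum_mul_sum, ← sum_sub_distrib]
  refine sum_congr rfl fun j _ => ?_
  rw [av_sum, ← sum_sub_distrib]
  refine sum_congr rfl fun k _ => ?_
  rw [av_mul]
  unfold cv
  rw [mn_eq (fun p u => H j p u * H k p u)]
  ring

lemma chr_datJ (hB : 0 < B) (hRp : R.PosSemidef) (I : Finset ℝ≥0) (hI : ∀ s ∈ I, 0 < s ∧ s ≤ 1) (x : EuclideanSpace ℝ (J × I)) (ε : ℝ) (hε : 0 < ε) :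
    ∃ X₁ : ℕ, ∀ b : DatJ κ J B κ₀ R M, X₁ ≤ b.X →
      ‖charFun (lw (fun t : kbox b.N b.L => b.vec I t) : Measure (EuclideanSpace ℝ (J × I))) x -
        charFun (nuJ R I : Measure (EuclideanSpace ℝ (J × I))) x‖ ≤ ε := by
  classical
  obtain ⟨S, hS⟩ : ∃ S : ℝ, S = ∑ a, |x a| + 1 := ⟨_, rfl⟩
  have hS0 : 0 < S := by
    have : 0 ≤ ∑ a, |x a| := sum_nonneg fun a _ => abs_nonneg _
    rw [hS]
    linarith
  obtain ⟨K₁, hK₁⟩ : ∃ K₁ : ℝ, K₁ = ∑ j, |κ₀ j| := ⟨_, rfl⟩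
  obtain ⟨K₂, hK₂⟩ : ∃ K₂ : ℝ, K₂ = ∑ j, ∑ k, |R j k| := ⟨_, rfl⟩
  have hK₁0 : 0 ≤ K₁ := by rw [hK₁]; exact sum_nonneg fun j _ => abs_nonneg _
  have hK₂0 : 0 ≤ K₂ := by rw [hK₂]; exact sum_nonneg fun j _ => sum_nonneg fun k _ => abs_nonneg _
  have hk1 : ∀ j, |κ₀ j| ≤ K₁ := fun j => by
    rw [hK₁]
    exact single_le_sum (f := fun j => |κ₀ j|) (fun j _ => abs_nonneg _) (mem_univ j)
  have hk2 : ∀ j k, |R j k| ≤ K₂ := fun j k => by
    rw [hK₂]
    refine le_trans (single_le_sum (f := fun k => |R j k|) (fun k _ => abs_nonneg _) (mem_univ k)) ?_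
    exact single_le_sum (f := fun j => ∑ k, |R j k|) (fun j _ => sum_nonneg fun k _ => abs_nonneg _) (mem_univ j)
  obtain ⟨X₁, hX₁, h⟩ := chr_res κ (S * B) 1 (ε / 3) (by positivity) one_pos (by positivity)
  obtain ⟨D₁, hD₁⟩ : ∃ D₁ : ℝ, D₁ = S * (2 * |M| + K₁) := ⟨_, rfl⟩
  have hD₁0 : 0 ≤ D₁ := by
    rw [hD₁]
    positivity
  obtain ⟨D₂, hD₂⟩ : ∃ D₂ : ℝ, D₂ = S ^ 2 * (|M| + K₂) := ⟨_, rfl⟩
  have hD₂0 : 0 ≤ D₂ := by
    rw [hD₂]
    positivity
  have hsq : Tendsto (fun X : ℕ => Real.sqrt (Real.log (Real.log X))) atTop atTop := Real.tendsto_sqrt_atTop.comp loglog_tendsto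
  have e1 : ∀ᶠ X : ℕ in atTop, ∀ s : I, 3 ≤ tm X (s : ℝ≥0) ∧
      |Real.log (Real.log (tm X (s : ℝ≥0))) - ((s : ℝ≥0) : ℝ) * Real.log (Real.log X)| ≤ 1 := by
    rw [eventually_all]
    intro s
    exact tm_large (by exact_mod_cast (hI s s.2).1)
  obtain ⟨X₂, hX₂⟩ := eventually_atTop.1 (e1.and ((hsq.eventually_ge_atTop (3 * D₁ / ε + 1)).and
    (loglog_tendsto.eventually_ge_atTop (3 * D₂ / ε + 1))))
  refine ⟨max X₁ X₂, fun b hb => ?_⟩
  obtain ⟨f1, f2, f3⟩ := hX₂ b.X ((le_max_right _ _).trans hb)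
  obtain ⟨ll, hll⟩ : ∃ ll : ℝ, ll = Real.log (Real.log b.X) := ⟨_, rfl⟩
  obtain ⟨D, hD⟩ : ∃ D : ℝ, D = Real.sqrt ll := ⟨_, rfl⟩
  rw [← hll] at f1 f2 f3
  rw [← hD] at f2
  have hD1 : 1 ≤ D := by
    have : 0 ≤ 3 * D₁ / ε := by positivity
    linarith
  have hll1 : 1 ≤ ll := by
    have : 0 ≤ 3 * D₂ / ε := by positivity
    linarith
  have hM0 : 0 ≤ |M| := abs_nonneg M
  obtain ⟨a, ha⟩ : ∃ a : I → ℕ, a = fun s : I => tm b.X (s : ℝ≥0) := ⟨_, rfl⟩
  have haX : ∀ s, a s ≤ b.X := by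
    intro s
    rw [ha]
    exact tm_le (by have := b.hX; omega) (by exact_mod_cast (hI s s.2).2)
  have ha3 : ∀ s, 3 ≤ a s := fun s => by rw [ha]; exact (f1 s).1
  have hal : ∀ s, |Real.log (Real.log (a s)) - ((s : ℝ≥0) : ℝ) * ll| ≤ 1 := fun s => by rw [ha]; exact (f1 s).2
  obtain ⟨w, hw⟩ : ∃ w : J → ℕ → ℝ, w = fun j => wt a (fun s => x (j, s)) := ⟨_, rfl⟩
  obtain ⟨Q, hQ⟩ : ∃ Q : (p : ℕ) → (κ → ZMod p) → ℝ, Q = HJ b.H w := ⟨_, rfl⟩
  have hwR : ∑ j, ∑ s, |x (j, s)| ≤ S := by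
    rw [hS, Fintype.sum_prod_type]
    linarith
  have hQb : ∀ p : ℕ, p.Prime → ∀ u, |Q p u| ≤ (S * B) / Real.sqrt p := by
    intro p hp u
    rw [hQ]
    unfold HJ
    refine (abs_sum_le_sum_abs _ _).trans ?_
    have h1 : ∀ j, |w j p * b.H j p u| ≤ (∑ s, |x (j, s)|) * (B / Real.sqrt p) := by
      intro j
      rw [abs_mul, hw]
      exact mul_le_mul (wt_le a _ p) (b.hH j p hp u) (abs_nonneg _) (sum_nonneg fun s _ => abs_nonneg _)
    refine (sum_le_sum fun j _ => h1 j).trans ?_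
    rw [← sum_mul, mul_div_assoc]
    exact mul_le_mul_of_nonneg_right hwR (by positivity)
  have h1 := h b.X ((le_max_left _ _).trans hb) b.N b.L b.hL Q hQb (fun _ => 1) (fun p => by rw [abs_one])
  rw [← hll, ← hD] at h1
  simp only [one_mul, one_pow] at h1
  -- the characteristic function of the vector
  obtain ⟨U, hU⟩ : ∃ U : (κ → ℤ) → ℝ, U = fun t => (∑ p ∈ PP b.X, (Q p (fun i => (t i : ZMod p)) - mn Q p)) / D := ⟨_, rfl⟩
  obtain ⟨Vv, hVv⟩ : ∃ Vv : (κ → ℤ) → ℝ, Vv = fun t => inner ℝ (b.vec I t) x - U t := ⟨_, rfl⟩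
  have g1 : ‖charFun (lw (fun t : kbox b.N b.L => b.vec I t) : Measure (EuclideanSpace ℝ (J × I))) x -
      av (fun t : kbox b.N b.L => Complex.exp ((U t : ℂ) * Complex.I))‖ ≤ ε / 3 := by
    rw [chr_lw, ← av_sub]
    refine (norm_av_le _).trans ?_
    have h2 : ∀ t : kbox b.N b.L, ‖Complex.exp (((inner ℝ (b.vec I t) x : ℝ) : ℂ) * Complex.I) -
        Complex.exp ((U t : ℂ) * Complex.I)‖ ≤ |Vv t| := by
      intro t
      have h3 : (inner ℝ (b.vec I t) x : ℝ) = Vv t + U t := by rw [hVv]; ring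
      rw [h3]
      exact norm_exp_sub _ _
    refine (av_mono h2).trans ?_
    -- the formula
    have h3 : ∀ t : κ → ℤ, Vv t = (∑ j, ∑ s : I, x (j, s) * ((b.F j (a s) t - ∑ p ∈ PP (a s), b.H j p (fun i => (t i : ZMod p))) +
        ((∑ p ∈ PP (a s), mn (b.H j) p - κ₀ j * Real.log (Real.log (a s))) +
          κ₀ j * (Real.log (Real.log (a s)) - ((s : ℝ≥0) : ℝ) * ll)))) / D := by
      intro t
      have h4 : (inner ℝ (b.vec I t) x : ℝ) = (∑ j, ∑ s : I, x (j, s) * (b.F j (a s) t - κ₀ j * ((s : ℝ≥0) : ℝ) * ll)) / D := by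
        rw [PiLp.inner_apply, Fintype.sum_prod_type, sum_div]
        refine sum_congr rfl fun j _ => ?_
        rw [sum_div]
        refine sum_congr rfl fun s _ => ?_
        rw [RCLike.inner_apply, conj_trivial]
        unfold DatJ.vec
        rw [← hll, ← hD, ha]
        ring
      have h5 : ∑ p ∈ PP b.X, (Q p (fun i => (t i : ZMod p)) - mn Q p) =
          ∑ j, ∑ s : I, x (j, s) * ∑ p ∈ PP (a s), (b.H j p (fun i => (t i : ZMod p)) - mn (b.H j) p) := by
        have h6 : ∀ p ∈ PP b.X, Q p (fun i => (t i : ZMod p)) - mn Q p = ∑ j, w j p * (b.H j p (fun i => (t i : ZMod p)) - mn (b.H j) p) := by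
          intro p hp
          have : Fact p.Prime := ⟨(mem_filter.1 hp).2⟩
          rw [hQ, mn_HJ]
          unfold HJ
          rw [← sum_sub_distrib]
          exact sum_congr rfl fun j _ => by ring
        rw [sum_congr rfl h6, sum_comm]
        refine sum_congr rfl fun j _ => ?_
        rw [hw]
        exact wt_sum a haX (fun s => x (j, s)) (fun p => b.H j p (fun i => (t i : ZMod p)) - mn (b.H j) p)
      rw [hVv]
      show (inner ℝ (b.vec I t) x : ℝ) - U t = _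
      rw [h4, hU]
      show _ - (∑ p ∈ PP b.X, (Q p (fun i => (t i : ZMod p)) - mn Q p)) / D = _
      rw [h5, ← sub_div, ← sum_sub_distrib]
      congr 1
      refine sum_congr rfl fun j _ => ?_
      rw [← sum_sub_distrib]
      refine sum_congr rfl fun s _ => ?_
      rw [sum_sub_distrib]
      ring
    have h4 : ∀ t : kbox b.N b.L, |Vv t| ≤ D⁻¹ * ((∑ j, ∑ s : I, |x (j, s)| * |b.F j (a s) t - ∑ p ∈ PP (a s), b.H j p (fun i => ((t : κ → ℤ) i : ZMod p))|) +
        S * (|M| + K₁)) := by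
      intro t
      rw [h3, abs_div, abs_of_pos (by linarith : 0 < D), div_eq_inv_mul]
      refine mul_le_mul_of_nonneg_left ?_ (by positivity)
      refine (abs_sum_le_sum_abs _ _).trans ?_
      have h5 : ∀ (j : J) (s : I), |x (j, s) * ((b.F j (a s) t - ∑ p ∈ PP (a s), b.H j p (fun i => ((t : κ → ℤ) i : ZMod p))) +
        ((∑ p ∈ PP (a s), mn (b.H j) p - κ₀ j * Real.log (Real.log (a s))) +
          κ₀ j * (Real.log (Real.log (a s)) - ((s : ℝ≥0) : ℝ) * ll)))| ≤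
          |x (j, s)| * |b.F j (a s) t - ∑ p ∈ PP (a s), b.H j p (fun i => ((t : κ → ℤ) i : ZMod p))| + |x (j, s)| * (|M| + K₁) := by
        intro j s
        rw [abs_mul, ← mul_add]
        refine mul_le_mul_of_nonneg_left ?_ (abs_nonneg _)
        refine (abs_add_le _ _).trans (add_le_add le_rfl ((abs_add_le _ _).trans (add_le_add ?_ ?_)))
        · exact (b.h2 j (a s) (ha3 s)).trans (le_abs_self _)
        · rw [abs_mul]
          calc |κ₀ j| * _ ≤ |κ₀ j| * 1 := mul_le_mul_of_nonneg_left (hal s) (abs_nonneg _)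
            _ ≤ _ := by rw [mul_one]; exact hk1 j
      have h6 : ∀ j, |∑ s : I, x (j, s) * ((b.F j (a s) t - ∑ p ∈ PP (a s), b.H j p (fun i => ((t : κ → ℤ) i : ZMod p))) +
        ((∑ p ∈ PP (a s), mn (b.H j) p - κ₀ j * Real.log (Real.log (a s))) +
          κ₀ j * (Real.log (Real.log (a s)) - ((s : ℝ≥0) : ℝ) * ll)))| ≤
          ∑ s : I, |x (j, s)| * |b.F j (a s) t - ∑ p ∈ PP (a s), b.H j p (fun i => ((t : κ → ℤ) i : ZMod p))| + (∑ s : I, |x (j, s)|) * (|M| + K₁) := by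
        intro j
        refine (abs_sum_le_sum_abs _ _).trans ((sum_le_sum fun s _ => h5 j s).trans ?_)
        rw [sum_add_distrib, ← sum_mul]
      refine (sum_le_sum fun j _ => h6 j).trans ?_
      rw [sum_add_distrib, ← sum_mul]
      exact add_le_add le_rfl (mul_le_mul_of_nonneg_right hwR (by positivity))
    refine (av_mono h4).trans ?_
    rw [av_mul, av_add, av_const, av_sum]
    have h5 : ∑ j, av (fun t : kbox b.N b.L => ∑ s : I, |x (j, s)| * |b.F j (a s) t - ∑ p ∈ PP (a s), b.H j p (fun i => ((t : κ → ℤ) i : ZMod p))|) ≤ S * |M| := by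
      have h6 : ∀ j, av (fun t : kbox b.N b.L => ∑ s : I, |x (j, s)| * |b.F j (a s) t - ∑ p ∈ PP (a s), b.H j p (fun i => ((t : κ → ℤ) i : ZMod p))|) ≤
          (∑ s : I, |x (j, s)|) * |M| := by
        intro j
        rw [av_sum, sum_mul]
        refine sum_le_sum fun s _ => ?_
        rw [av_mul]
        exact mul_le_mul_of_nonneg_left ((b.hF j (a s) (ha3 s) (haX s)).trans (le_abs_self _)) (abs_nonneg _)
      refine (sum_le_sum fun j _ => h6 j).trans ?_
      rw [← sum_mul]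
      exact mul_le_mul_of_nonneg_right hwR hM0
    rw [inv_mul_le_iff₀ (by linarith)]
    have h7 : 3 * D₁ / ε ≤ D := by linarith
    rw [div_le_iff₀ hε, hD₁] at h7
    nlinarith
  have g2 : ‖Complex.exp ((-((∑ p ∈ PP b.X, vr Q p) / (2 * ll)) : ℝ) : ℂ) -
      charFun (nuJ R I : Measure (EuclideanSpace ℝ (J × I))) x‖ ≤ ε / 3 := by
    rw [chr_nuJ I hRp]
    obtain ⟨q, hq⟩ : ∃ q : ℝ, q = ∑ a : J × I, ∑ b : J × I, x a * x b * (R a.1 b.1 * ((min (a.2 : ℝ≥0) (b.2 : ℝ≥0) : ℝ≥0) : ℝ)) := ⟨_, rfl⟩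
    rw [← hq]
    have hq0 : 0 ≤ q := by
      have h2 := norm_charFun_le_one (μ := (nuJ R I : Measure (EuclideanSpace ℝ (J × I)))) x
      rw [chr_nuJ I hRp, ← hq, ← Complex.ofReal_exp, Complex.norm_real, Real.norm_of_nonneg (Real.exp_pos _).le,
        Real.exp_le_one_iff] at h2
      linarith
    obtain ⟨u, hu⟩ : ∃ u : ℝ, u = ∑ p ∈ PP b.X, vr Q p := ⟨_, rfl⟩
    rw [← hu]
    have hvr : ∀ p ∈ PP b.X, 0 ≤ vr Q p := by
      intro p hp
      have : Fact p.Prime := ⟨(mem_filter.1 hp).2⟩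
      unfold vr
      rw [mn_eq, mn_eq]
      have h4 : 0 ≤ av (fun u => (Q p u - av (Q p)) ^ 2) := av_nonneg fun u => sq_nonneg _
      have h5 : (fun u => (Q p u - av (Q p)) ^ 2) = fun u => Q p u ^ 2 - ((2 * av (Q p)) * Q p u - av (Q p) ^ 2) := by
        funext u
        ring
      rw [h5, av_sub, av_sub, av_mul, av_const] at h4
      linarith
    have hu0 : 0 ≤ u := by
      rw [hu]
      exact sum_nonneg fun p hp => hvr p hp
    have hclose : |u - q * ll| ≤ D₂ := by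
      have e2 : u = ∑ j, ∑ k, ∑ s : I, ∑ t : I, x (j, s) * x (k, t) * ∑ p ∈ PP (min (a s) (a t)), cv (b.H j) (b.H k) p := by
        have e3 : ∀ p ∈ PP b.X, vr Q p = ∑ j, ∑ k, w j p * w k p * cv (b.H j) (b.H k) p := by
          intro p hp
          have : Fact p.Prime := ⟨(mem_filter.1 hp).2⟩
          rw [hQ]
          exact vr_HJ b.H w p
        rw [hu, sum_congr rfl e3, sum_comm]
        refine sum_congr rfl fun j _ => ?_
        rw [sum_comm]
        refine sum_congr rfl fun k _ => ?_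
        rw [hw]
        exact wt_mul a haX (fun s => x (j, s)) (fun s => x (k, s)) (fun p => cv (b.H j) (b.H k) p)
      have e3 : q * ll = ∑ j, ∑ k, ∑ s : I, ∑ t : I, x (j, s) * x (k, t) * (R j k * (((min (s : ℝ≥0) (t : ℝ≥0) : ℝ≥0) : ℝ) * ll)) := by
        rw [hq, Fintype.sum_prod_type, sum_mul]
        refine sum_congr rfl fun j _ => ?_
        have e4 : ∀ s : I, ∑ b : J × I, x (j, s) * x b * (R j b.1 * ((min (s : ℝ≥0) (b.2 : ℝ≥0) : ℝ≥0) : ℝ)) =
            ∑ k, ∑ t : I, x (j, s) * x (k, t) * (R j k * ((min (s : ℝ≥0) (t : ℝ≥0) : ℝ≥0) : ℝ)) := by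
          intro s
          rw [Fintype.sum_prod_type]
        have e5 : ∑ s : I, ∑ b : J × I, x (j, s) * x b * (R (j, s).1 b.1 * ((min (((j, s) : J × I).2 : ℝ≥0) (b.2 : ℝ≥0) : ℝ≥0) : ℝ)) =
            ∑ s : I, ∑ k, ∑ t : I, x (j, s) * x (k, t) * (R j k * ((min (s : ℝ≥0) (t : ℝ≥0) : ℝ≥0) : ℝ)) := sum_congr rfl fun s _ => e4 s
        rw [e5, sum_comm, sum_mul]
        refine sum_congr rfl fun k _ => ?_
        rw [sum_mul]
        refine sum_congr rfl fun s _ => ?_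
        rw [sum_mul]
        refine sum_congr rfl fun t _ => ?_
        ring
      rw [e2, e3, ← sum_sub_distrib]
      have hmain : ∀ (j k : J) (s t : I), |∑ p ∈ PP (min (a s) (a t)), cv (b.H j) (b.H k) p - R j k * (((min (s : ℝ≥0) (t : ℝ≥0) : ℝ≥0) : ℝ) * ll)| ≤ |M| + K₂ := by
        intro j k s t
        have h5 := (b.h3 j k (min (a s) (a t)) (le_min (ha3 s) (ha3 t))).trans (le_abs_self M)
        have h6 : |Real.log (Real.log ((min (a s) (a t) : ℕ) : ℝ)) - ((min (s : ℝ≥0) (t : ℝ≥0) : ℝ≥0) : ℝ) * ll| ≤ 1 := by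
          have hmono : ∀ n m : ℕ, 3 ≤ n → n ≤ m → Real.log (Real.log n) ≤ Real.log (Real.log m) := by
            intro n m hn hnm
            have h7 : (3 : ℝ) ≤ n := by exact_mod_cast hn
            have h8 : (n : ℝ) ≤ m := by exact_mod_cast hnm
            exact Real.log_le_log (Real.log_pos (by linarith)) (Real.log_le_log (by linarith) h8)
          have h7 : Real.log (Real.log ((min (a s) (a t) : ℕ) : ℝ)) = min (Real.log (Real.log (a s))) (Real.log (Real.log (a t))) := by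
            rcases le_total (a s) (a t) with h8 | h8
            · rw [min_eq_left h8, min_eq_left (hmono _ _ (ha3 s) h8)]
            · rw [min_eq_right h8, min_eq_right (hmono _ _ (ha3 t) h8)]
          have h8 : ((min (s : ℝ≥0) (t : ℝ≥0) : ℝ≥0) : ℝ) * ll = min (((s : ℝ≥0) : ℝ) * ll) (((t : ℝ≥0) : ℝ) * ll) := by
            rw [NNReal.coe_min, min_mul_of_nonneg _ _ (by linarith)]
          rw [h7, h8]
          exact (abs_min_sub_min_le_max _ _ _ _).trans (max_le (hal s) (hal t))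
        have h7 : |R j k * (Real.log (Real.log ((min (a s) (a t) : ℕ) : ℝ)) - ((min (s : ℝ≥0) (t : ℝ≥0) : ℝ≥0) : ℝ) * ll)| ≤ K₂ := by
          rw [abs_mul]
          calc _ ≤ |R j k| * 1 := mul_le_mul_of_nonneg_left h6 (abs_nonneg _)
            _ ≤ _ := by rw [mul_one]; exact hk2 j k
        have h8 : ∑ p ∈ PP (min (a s) (a t)), cv (b.H j) (b.H k) p - R j k * (((min (s : ℝ≥0) (t : ℝ≥0) : ℝ≥0) : ℝ) * ll) =
            (∑ p ∈ PP (min (a s) (a t)), cv (b.H j) (b.H k) p - R j k * Real.log (Real.log ((min (a s) (a t) : ℕ) : ℝ))) +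
            R j k * (Real.log (Real.log ((min (a s) (a t) : ℕ) : ℝ)) - ((min (s : ℝ≥0) (t : ℝ≥0) : ℝ≥0) : ℝ) * ll) := by ring
        rw [h8]
        exact (abs_add_le _ _).trans (by linarith)
      have hK0 : 0 ≤ |M| + K₂ := by positivity
      have hjs : ∀ (j k : J) (s : I), |∑ t : I, x (j, s) * x (k, t) * ∑ p ∈ PP (min (a s) (a t)), cv (b.H j) (b.H k) p -
          ∑ t : I, x (j, s) * x (k, t) * (R j k * (((min (s : ℝ≥0) (t : ℝ≥0) : ℝ≥0) : ℝ) * ll))| ≤ |x (j, s)| * ((∑ t : I, |x (k, t)|) * (|M| + K₂)) := by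
        intro j k s
        rw [← sum_sub_distrib, sum_mul, mul_sum]
        refine (abs_sum_le_sum_abs _ _).trans (sum_le_sum fun t _ => ?_)
        rw [← mul_sub, abs_mul, abs_mul, mul_assoc]
        exact mul_le_mul_of_nonneg_left (mul_le_mul_of_nonneg_left (hmain j k s t) (abs_nonneg _)) (abs_nonneg _)
      have hjk : ∀ (j k : J), |∑ s : I, ∑ t : I, x (j, s) * x (k, t) * ∑ p ∈ PP (min (a s) (a t)), cv (b.H j) (b.H k) p -
          ∑ s : I, ∑ t : I, x (j, s) * x (k, t) * (R j k * (((min (s : ℝ≥0) (t : ℝ≥0) : ℝ≥0) : ℝ) * ll))| ≤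
          (∑ s : I, |x (j, s)|) * ((∑ t : I, |x (k, t)|) * (|M| + K₂)) := by
        intro j k
        rw [← sum_sub_distrib, sum_mul]
        exact (abs_sum_le_sum_abs _ _).trans (sum_le_sum fun s _ => hjs j k s)
      have hj : ∀ (j : J), |∑ k, ∑ s : I, ∑ t : I, x (j, s) * x (k, t) * ∑ p ∈ PP (min (a s) (a t)), cv (b.H j) (b.H k) p -
          ∑ k, ∑ s : I, ∑ t : I, x (j, s) * x (k, t) * (R j k * (((min (s : ℝ≥0) (t : ℝ≥0) : ℝ≥0) : ℝ) * ll))| ≤
          (∑ s : I, |x (j, s)|) * (S * (|M| + K₂)) := by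
        intro j
        rw [← sum_sub_distrib]
        refine (abs_sum_le_sum_abs _ _).trans ((sum_le_sum fun k _ => hjk j k).trans ?_)
        rw [← mul_sum, ← sum_mul]
        exact mul_le_mul_of_nonneg_left (mul_le_mul_of_nonneg_right hwR hK0) (sum_nonneg fun s _ => abs_nonneg _)
      refine (abs_sum_le_sum_abs _ _).trans ((sum_le_sum fun j _ => hj j).trans ?_)
      rw [← sum_mul, hD₂, sq, mul_assoc]
      exact mul_le_mul_of_nonneg_right hwR (by positivity)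
    rw [← Complex.ofReal_exp, ← Complex.ofReal_exp, ← Complex.ofReal_sub, Complex.norm_real, Real.norm_eq_abs]
    refine (exp_sub_exp (by positivity) (by positivity)).trans ?_
    have h2 : u / (2 * ll) - q / 2 = (u - q * ll) / (2 * ll) := by
      field_simp
    rw [h2, abs_div, abs_of_pos (by linarith : 0 < 2 * ll), div_le_iff₀ (by linarith)]
    refine hclose.trans ?_
    have h7 : 3 * D₂ / ε ≤ ll := by linarith
    rw [div_le_iff₀ hε] at h7
    nlinarith
  have h1' : ‖av (fun t : kbox b.N b.L => Complex.exp ((U t : ℂ) * Complex.I)) -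
      Complex.exp ((-((∑ p ∈ PP b.X, vr Q p) / (2 * ll)) : ℝ) : ℂ)‖ ≤ ε / 3 := by
    rw [hU]
    exact h1
  have t1 := norm_sub_le_norm_sub_add_norm_sub (charFun (lw (fun t : kbox b.N b.L => b.vec I t) : Measure (EuclideanSpace ℝ (J × I))) x)
    (av (fun t : kbox b.N b.L => Complex.exp ((U t : ℂ) * Complex.I))) (charFun (nuJ R I : Measure (EuclideanSpace ℝ (J × I))) x)
  have t2 := norm_sub_le_norm_sub_add_norm_sub (av (fun t : kbox b.N b.L => Complex.exp ((U t : ℂ) * Complex.I)))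
    (Complex.exp ((-((∑ p ∈ PP b.X, vr Q p) / (2 * ll)) : ℝ) : ℂ)) (charFun (nuJ R I : Measure (EuclideanSpace ℝ (J × I))) x)
  linarith

open Classical in
/-- joint convergence to correlated Brownian motions -/
theorem joint (hB : 0 < B) (hRp : R.PosSemidef) (hd : ∀ j, 0 < R j j) (I : Finset ℝ≥0) (hI : ∀ s ∈ I, 0 < s ∧ s ≤ 1)
    (x : J × I → ℝ) (ε : ℝ) (hε : 0 < ε) :
    ∃ X₁ : ℕ, ∀ b : DatJ κ J B κ₀ R M, X₁ ≤ b.X →
      |(((kbox b.N b.L).filter fun t => ∀ a : J × I, (b.F a.1 (tm b.X (a.2 : ℝ≥0)) t - κ₀ a.1 * ((a.2 : ℝ≥0) : ℝ) * Real.log (Real.log b.X)) /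
        Real.sqrt (Real.log (Real.log b.X)) ≤ x a).card : ℝ) / ∏ i, (b.L i : ℝ) - WJ R I x| ≤ ε := by
  obtain ⟨X₁, h⟩ := levy (fun b : DatJ κ J B κ₀ R M => b.X) (fun b => lw (fun t : kbox b.N b.L => b.vec I t)) (nuJ R I)
    (fun y δ hδ => chr_datJ hB hRp I hI y δ hδ) (orthJ_frontier I hRp hd (fun s hs => (hI s hs).1) x) hε
  refine ⟨X₁, fun b hb => ?_⟩
  have h1 := h b hb
  rw [lw_real _ (orthJ_closed I x).measurableSet] at h1
  have h2 : ((univ.filter fun t : kbox b.N b.L => b.vec I t ∈ orthJ I x).card : ℝ) =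
      (((kbox b.N b.L).filter fun t => ∀ a : J × I, (b.F a.1 (tm b.X (a.2 : ℝ≥0)) t - κ₀ a.1 * ((a.2 : ℝ≥0) : ℝ) * Real.log (Real.log b.X)) /
        Real.sqrt (Real.log (Real.log b.X)) ≤ x a).card : ℝ) := by
    congr 1
    refine card_bij (fun t _ => t.1) ?_ ?_ ?_
    · intro t ht
      rw [mem_filter] at ht ⊢
      exact ⟨t.2, ht.2⟩
    · intro t _ t' _ h3
      exact Subtype.ext h3
    · intro t ht
      rw [mem_filter] at ht
      refine ⟨⟨t, ht.1⟩, ?_, rfl⟩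
      rw [mem_filter]
      exact ⟨mem_univ _, ht.2⟩
  have h3 : (Fintype.card (kbox b.N b.L) : ℝ) = ∏ i, (b.L i : ℝ) := by
    rw [Fintype.card_coe]
    unfold kbox
    rw [Fintype.card_piFinset]
    push_cast
    refine prod_congr rfl fun i _ => ?_
    rw [Int.card_Ico, add_sub_cancel_left, Int.toNat_natCast]
  rw [h2, h3] at h1
  exact h1

end main

end Q282.MJ
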