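import Pool.Agent.Q282.MJ.Prod
import Pool.Agent.Q282.JB.Brown

/-!
# Joint convergence to independent Brownian motions for sums over the primes of a number field
-/

set_option autoImplicit false
set_option linter.unusedSectionVars false

namespace Q282.MJ

open Finset NumberField IsDedekindDomain Filter
open scoped NNReal
open Q282.NF Q282.GK Q282.CL Q282.MN Q282.JB
open Q282.BP (PP bx)
open Pool.Agent.H921R2.TatePole (below deg nm nm_eq)

/-- the data of the sums over the primes of a number field -/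
theorem nf_data (K : Type) [Field K] [NumberField K] (ι : Type) [Fintype ι] [DecidableEq ι] (P₀ : ℕ) (κ B : ℝ) (hB : 0 ≤ B) :
    ∃ M : ℝ, ∀ X : ℕ, 16 ≤ X → ∀ (b : Fin (Module.finrank ℚ K) → 𝓞 K), (∀ x : 𝓞 K, ∃ a : Fin (Module.finrank ℚ K) → ℤ, x = ∑ j, (a j : 𝓞 K) * b j) →
    ∀ (N : ι × Fin (Module.finrank ℚ K) → ℤ) (L : ι × Fin (Module.finrank ℚ K) → ℕ), (∀ i, (X : ℝ) ^ 5 ≤ L i) →
    ∀ val : HeightOneSpectrum (𝓞 K) → (ι → 𝓞 K) → ℝ, Loc2 K ι P₀ κ B val →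
    (∀ p : ℕ, p.Prime → ∀ u, |Hw val b c1 p u| ≤ (Module.finrank ℚ K * B + 1) / Real.sqrt p) ∧
    (∀ Y : ℕ, 3 ≤ Y → |∑ p ∈ PP Y, mn (Hw val b c1) p - κ * Real.log (Real.log Y)| ≤ M) ∧
    (∀ Y : ℕ, 3 ≤ Y → |∑ p ∈ PP Y, vr (Hw val b c1) p - Real.log (Real.log Y)| ≤ M) ∧
    (∀ Y : ℕ, 3 ≤ Y → Y ≤ X → av (fun t : kbox N L => |∑ v ∈ SX K Y, val v (comb b (t : ι × Fin (Module.finrank ℚ K) → ℤ)) -
      ∑ p ∈ PP Y, Hw val b c1 p (fun i => ((t : ι × Fin (Module.finrank ℚ K) → ℤ) i : ZMod p))|) ≤ M) := by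
  classical
  obtain ⟨C₁, hC₁0, hC₁⟩ := Hw_mean (ι := ι) K P₀ κ B hB
  obtain ⟨C₂, hC₂0, hC₂⟩ := Hw_mul (ι := ι) K P₀ κ B hB
  obtain ⟨C₀, hC₀0, hC₀⟩ := summ
  obtain ⟨M₀, hM₀0, hM₀⟩ := nu_sum K
  obtain ⟨D, hD⟩ : ∃ D : ℝ, D = Module.finrank ℚ K := ⟨_, rfl⟩
  have hD0 : 0 ≤ D := by rw [hD]; positivity
  obtain ⟨ρ, hρ⟩ : ∃ ρ : ℕ → ℝ, ρ = fun p => if p.Prime then nu K p else 0 := ⟨_, rfl⟩
  have hρp : ∀ p : ℕ, p.Prime → ρ p = nu K p := fun p hp => by rw [hρ]; exact if_pos hp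
  have hρle : ∀ p, |ρ p| ≤ D := by
    intro p
    rw [hρ]
    show |if p.Prime then nu K p else 0| ≤ D
    split_ifs with hp
    · obtain ⟨h1, h2⟩ := nu_le (K := K) ⟨p, hp⟩
      rw [abs_of_nonneg h1, hD]
      exact h2
    · rw [abs_zero]
      exact hD0
  obtain ⟨M₁, hM₁⟩ := sums_close ρ M₀ D κ (C₁ + C₂) hD0 (by positivity) hρle (by
    intro Y hY
    have h1 : ∑ p ∈ PP Y, ρ p / p = ∑ p ∈ PP Y, nu K p / p := sum_congr rfl fun p hp => by rw [hρp p (mem_filter.1 hp).2]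
    rw [h1]
    exact hM₀ Y hY)
  obtain ⟨δ, hδ⟩ : ∃ δ : ℕ, δ = Fintype.card (ι × Fin (Module.finrank ℚ K)) := ⟨_, rfl⟩
  obtain ⟨C₅, hC₅⟩ : ∃ C₅ : ℝ, C₅ = 2 * (D * B) + 1 := ⟨_, rfl⟩
  have hC₅1 : 1 ≤ C₅ := by
    rw [hC₅]
    have : 0 ≤ D * B := by positivity
    linarith
  obtain ⟨M, hM⟩ : ∃ M : ℝ, M = max M₁ (1 + ((2 * (D * B)) ^ 2 * C₀ + C₅ ^ 2 * (δ * Real.exp δ)) + C₁ * C₀) := ⟨_, rfl⟩
  refine ⟨M, fun X hX16 b hb N L hL val hloc => ?_⟩
  have hX0 : (16 : ℝ) ≤ X := by exact_mod_cast hX16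
  have hL0 : ∀ i, 0 < L i := fun i => by
    have h1 : (0 : ℝ) < L i := lt_of_lt_of_le (by positivity) (hL i)
    exact_mod_cast h1
  have hne : Nonempty (kbox N L) := kbox_nonempty hL0
  have hmean : ∀ p : ℕ, p.Prime → |mn (Hw val b c1) p - κ * (ρ p / p)| ≤ (C₁ + C₂) / (p : ℝ) ^ (3 / 2 : ℝ) := by
    intro p hp
    have : Fact p.Prime := ⟨hp⟩
    rw [mn_eq, hρp p hp]
    have h1 := hC₁ val hloc ⟨p, hp⟩ (Module.finrank ℚ K) b hb c1 1 zero_le_one (fun f _ _ => c1_le _)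
    have h2 : c1 p = 1 := if_pos hp
    have h3 : |av (Hw val b c1 p) - c1 p * (κ * (nu K p / p))| ≤ C₁ * 1 / (p : ℝ) ^ (3 / 2 : ℝ) := h1
    rw [h2, one_mul, mul_one] at h3
    exact h3.trans (div_le_div_of_nonneg_right (by linarith) (by positivity))
  have hsq : ∀ p : ℕ, p.Prime → |mn (fun p u => Hw val b c1 p u ^ 2) p - ρ p / p| ≤ (C₁ + C₂) / (p : ℝ) ^ (3 / 2 : ℝ) := by
    intro p hp
    have : Fact p.Prime := ⟨hp⟩
    rw [mn_eq, hρp p hp]
    have h1 := hC₂ val hloc ⟨p, hp⟩ (Module.finrank ℚ K) b hb c1 c1 1 zero_le_one (fun f _ _ => c1_le _) (fun f _ _ => c1_le _)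
    have h2 : c1 p = 1 := if_pos hp
    have h3 : |av (fun u => Hw val b c1 p u * Hw val b c1 p u) - c1 p * c1 p * (nu K p / p)| ≤ C₂ * 1 ^ 2 / (p : ℝ) ^ (3 / 2 : ℝ) := h1
    rw [h2, one_mul, one_mul, one_pow, mul_one] at h3
    have h4 : (fun u => Hw val b c1 p u ^ 2) = fun u => Hw val b c1 p u * Hw val b c1 p u := by
      funext u
      ring
    show |av (fun u => Hw val b c1 p u ^ 2) - nu K p / p| ≤ _
    rw [h4]
    exact h3.trans (div_le_div_of_nonneg_right (by linarith) (by positivity))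
  obtain ⟨g1, g2⟩ := hM₁ (ι × Fin (Module.finrank ℚ K)) (Hw val b c1) hmean hsq
  have hF : ∀ Y : ℕ, 3 ≤ Y → Y ≤ X → av (fun t : kbox N L => |∑ v ∈ SX K Y, val v (comb b (t : ι × Fin (Module.finrank ℚ K) → ℤ)) -
      ∑ p ∈ PP Y, Hw val b c1 p (fun i => ((t : ι × Fin (Module.finrank ℚ K) → ℤ) i : ZMod p))|) ≤ M := by
    intro Y hY3 hYX
    have hprime : ∀ p ∈ PP Y, p.Prime := fun p hp => (mem_filter.1 hp).2
    have hpY : ∀ p ∈ PP Y, p ≤ Y := fun p hp => (mem_Icc.1 (mem_filter.1 hp).1).2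
    have e1 : ∀ t : ι × Fin (Module.finrank ℚ K) → ℤ, ∑ v ∈ SX K Y, val v (comb b t) - ∑ p ∈ PP Y, Hw val b c1 p (fun i => (t i : ZMod p)) =
        ∑ p ∈ PP Y, Hw val b (c2 Y) p (fun i => (t i : ZMod p)) := by
      intro t
      have h1 : ∑ v ∈ SX K Y, val v (comb b t) = ∑ v ∈ SX K Y, cY Y (Ideal.absNorm v.asIdeal) * val v (comb b t) := by
        refine sum_congr rfl fun v hv => ?_
        have : cY Y (Ideal.absNorm v.asIdeal) = 1 := if_pos (mem_SX.1 hv)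
        rw [this, one_mul]
      rw [h1, sum_Hw hloc b (cY Y) Y (fun n hn => by
        unfold cY
        rw [if_neg (not_le.2 hn)]) t, sub_eq_iff_eq_add, ← sum_add_distrib]
      refine sum_congr rfl fun p hp => ?_
      rw [split b Y p hp]
      ring
    have hT : (0 : ℝ) < (X : ℝ) ^ 5 := by positivity
    have h1 := sq_kbox (PP Y) hprime Y hpY (Hw val b (c2 Y)) (fun p => D * B / p) (fun p hp => by positivity) C₅ hC₅1 (fun p hp => by
      have hp1 : (1 : ℝ) ≤ p := by exact_mod_cast (hprime p hp).one_lt.le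
      have h2 : D * B / p ≤ D * B := div_le_self (by positivity) hp1
      show 2 * (D * B / p) ≤ C₅
      rw [hC₅]
      linarith) (fun p hp u => by
      have := c2_small hloc hB b Y p (hprime p hp) u
      rw [← hD] at this
      exact this) _ hT N L hL
    have h2 : ∑ p ∈ PP Y, (2 * (D * B / p)) ^ 2 ≤ (2 * (D * B)) ^ 2 * C₀ := by
      refine le_trans ?_ (mul_le_mul_of_nonneg_left (hC₀ (PP Y) hprime) (by positivity))
      rw [mul_sum]
      refine sum_le_sum fun p hp => ?_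
      have hp1 : (1 : ℝ) ≤ p := by exact_mod_cast (hprime p hp).one_lt.le
      have hs1 : 1 ≤ Real.sqrt p := Real.one_le_sqrt.2 hp1
      have hs2 : Real.sqrt p ^ 2 = p := Real.sq_sqrt (by linarith)
      have h3 : (2 * (D * B / p)) ^ 2 = (2 * (D * B)) ^ 2 * (1 / (p : ℝ) ^ 2) := by
        field_simp
      rw [h3]
      refine mul_le_mul_of_nonneg_left (one_div_le_one_div_of_le (by positivity) ?_) (by positivity)
      calc Real.sqrt p ^ 3 ≤ Real.sqrt p ^ 4 := pow_le_pow_right₀ hs1 (by norm_num)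
        _ = (Real.sqrt p ^ 2) ^ 2 := by ring
        _ = (p : ℝ) ^ 2 := by rw [hs2]
    have h3 : (Y : ℝ) ^ 2 * (C₅ ^ 2 * (Real.exp (Fintype.card (ι × Fin (Module.finrank ℚ K)) * (Y : ℝ) ^ 2 / (X : ℝ) ^ 5) - 1)) ≤
        C₅ ^ 2 * (δ * Real.exp δ) := by
      rw [← hδ]
      have hYX' : (Y : ℝ) ≤ X := by exact_mod_cast hYX
      have hY2 : (Y : ℝ) ^ 2 ≤ (X : ℝ) ^ 2 := pow_le_pow_left₀ (Nat.cast_nonneg _) hYX' 2
      have h4 : (δ : ℝ) * (Y : ℝ) ^ 2 / (X : ℝ) ^ 5 ≤ δ * (1 / (X : ℝ) ^ 3) := by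
        rw [div_le_iff₀ hT]
        have h5 : (δ : ℝ) * (1 / (X : ℝ) ^ 3) * (X : ℝ) ^ 5 = δ * (X : ℝ) ^ 2 := by
          field_simp
        rw [h5]
        exact mul_le_mul_of_nonneg_left hY2 (Nat.cast_nonneg _)
      have h5 : 1 / (X : ℝ) ^ 3 ≤ 1 := by
        rw [div_le_one (by positivity)]
        exact one_le_pow₀ (by linarith)
      have h6 : (0 : ℝ) ≤ δ * (1 / (X : ℝ) ^ 3) := by positivity
      have h7 : Real.exp ((δ : ℝ) * (Y : ℝ) ^ 2 / (X : ℝ) ^ 5) - 1 ≤ δ * (1 / (X : ℝ) ^ 3) * Real.exp δ := by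
        have h8 := exp_sub_one h6
        have h9 := Real.exp_le_exp.2 h4
        have h10 : Real.exp ((δ : ℝ) * (1 / (X : ℝ) ^ 3)) ≤ Real.exp δ := by
          apply Real.exp_le_exp.2
          have := mul_le_mul_of_nonneg_left h5 (Nat.cast_nonneg δ : (0 : ℝ) ≤ δ)
          linarith
        have h11 := mul_le_mul_of_nonneg_left h10 h6
        linarith
      have h8 : (Y : ℝ) ^ 2 * (1 / (X : ℝ) ^ 3) ≤ 1 := by
        rw [mul_one_div, div_le_one (by positivity)]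
        exact hY2.trans (pow_le_pow_right₀ (by linarith) (by norm_num))
      calc (Y : ℝ) ^ 2 * (C₅ ^ 2 * (Real.exp ((δ : ℝ) * (Y : ℝ) ^ 2 / (X : ℝ) ^ 5) - 1)) ≤
            (Y : ℝ) ^ 2 * (C₅ ^ 2 * (δ * (1 / (X : ℝ) ^ 3) * Real.exp δ)) :=
            mul_le_mul_of_nonneg_left (mul_le_mul_of_nonneg_left h7 (by positivity)) (by positivity)
        _ = C₅ ^ 2 * (δ * Real.exp δ) * ((Y : ℝ) ^ 2 * (1 / (X : ℝ) ^ 3)) := by ring
        _ ≤ C₅ ^ 2 * (δ * Real.exp δ) * 1 := mul_le_mul_of_nonneg_left h8 (by positivity)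
        _ = _ := mul_one _
    have h4 : |∑ p ∈ PP Y, mn (Hw val b (c2 Y)) p| ≤ C₁ * C₀ := by
      refine (abs_sum_le_sum_abs _ _).trans (le_trans ?_ (mul_le_mul_of_nonneg_left (hC₀ (PP Y) hprime) hC₁0))
      rw [mul_sum]
      refine sum_le_sum fun p hp => ?_
      have hpp := hprime p hp
      have : Fact p.Prime := ⟨hpp⟩
      rw [mn_eq]
      have h5 := hC₁ val hloc ⟨p, hpp⟩ (Module.finrank ℚ K) b hb (c2 Y) 1 zero_le_one (fun f _ _ => c2_le _ _)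
      have h6 : c2 Y p = 0 := if_neg (fun h => h.2 hpp)
      have h7 : |av (Hw val b (c2 Y) p) - c2 Y p * (κ * (nu K p / p))| ≤ C₁ * 1 / (p : ℝ) ^ (3 / 2 : ℝ) := h5
      rw [h6, zero_mul, sub_zero, mul_one, rpow_sqrt] at h7
      rw [mul_one_div]
      exact h7
    have h5 : ∀ t : kbox N L, |∑ v ∈ SX K Y, val v (comb b (t : ι × Fin (Module.finrank ℚ K) → ℤ)) -
        ∑ p ∈ PP Y, Hw val b c1 p (fun i => ((t : ι × Fin (Module.finrank ℚ K) → ℤ) i : ZMod p))| ≤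
        (∑ p ∈ PP Y, (Hw val b (c2 Y) p (fun i => ((t : ι × Fin (Module.finrank ℚ K) → ℤ) i : ZMod p)) - mn (Hw val b (c2 Y)) p)) ^ 2 +
          (1 + C₁ * C₀) := by
      intro t
      rw [e1]
      obtain ⟨z, hz⟩ : ∃ z : ℝ, z = ∑ p ∈ PP Y, (Hw val b (c2 Y) p (fun i => ((t : ι × Fin (Module.finrank ℚ K) → ℤ) i : ZMod p)) - mn (Hw val b (c2 Y)) p) :=
        ⟨_, rfl⟩
      rw [← hz]
      have h6 : ∑ p ∈ PP Y, Hw val b (c2 Y) p (fun i => ((t : ι × Fin (Module.finrank ℚ K) → ℤ) i : ZMod p)) = z + ∑ p ∈ PP Y, mn (Hw val b (c2 Y)) p := by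
        rw [hz, sum_sub_distrib]
        ring
      rw [h6]
      refine (abs_add_le _ _).trans ?_
      have h7 : |z| ≤ z ^ 2 + 1 := by
        rw [← sq_abs z]
        have := sq_nonneg (|z| - 1)
        have h8 := abs_nonneg z
        linarith [sq_nonneg (|z|)]
      linarith
    refine (av_mono h5).trans ?_
    rw [av_add, av_const]
    have h6 : 1 + ((2 * (D * B)) ^ 2 * C₀ + C₅ ^ 2 * (δ * Real.exp δ)) + C₁ * C₀ ≤ M := by
      rw [hM]
      exact le_max_right _ _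
    linarith
  refine ⟨fun p hp u => ?_, fun Y hY => (g1 Y hY).trans (by rw [hM]; exact le_max_left _ _),
    fun Y hY => (g2 Y hY).trans (by rw [hM]; exact le_max_left _ _), hF⟩
  have h2 := Hw_le hloc hB b c1 p hp (R := 1) zero_le_one (fun f _ _ => c1_le _) u
  rw [← hD, mul_one] at h2
  rw [← hD]
  exact h2.trans (div_le_div_of_nonneg_right (by linarith) (Real.sqrt_nonneg _))


section

variable {κ : Type} [Fintype κ] [DecidableEq κ]

/-- the variance of a sum -/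
lemma vr_add (H H' : (p : ℕ) → (κ → ZMod p) → ℝ) (p : ℕ) [hp : Fact p.Prime] :
    vr (fun p u => (H p u + H' p u) / Real.sqrt 2) p = (vr H p + vr H' p) / 2 + cv H H' p := by
  have hs : Real.sqrt 2 ^ 2 = 2 := Real.sq_sqrt (by norm_num)
  have hs0 : 0 < Real.sqrt 2 := Real.sqrt_pos.2 (by norm_num)
  unfold vr cv
  rw [mn_eq, mn_eq, mn_eq, mn_eq, mn_eq, mn_eq, mn_eq]
  have e1 : (fun u => ((H p u + H' p u) / Real.sqrt 2) ^ 2) = fun u => (1 / 2) * (H p u ^ 2 + (H' p u ^ 2 + 2 * (H p u * H' p u))) := by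
    funext u
    rw [div_pow, hs]
    ring
  have e2 : (fun u => (H p u + H' p u) / Real.sqrt 2) = fun u => (1 / Real.sqrt 2) * (H p u + H' p u) := by
    funext u
    ring
  rw [e1, e2, av_mul, av_mul, av_add, av_add, av_add, av_mul, mul_pow, div_pow, hs]
  ring

end

lemma Hw_add {K : Type} [Field K] [NumberField K] {ι : Type} [Fintype ι] [DecidableEq ι] {d : ℕ}
    (val val' : HeightOneSpectrum (𝓞 K) → (ι → 𝓞 K) → ℝ) (b : Fin d → 𝓞 K) (c : ℕ → ℝ) (x : ℝ) :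
    Hw (fun v t => (val v t + val' v t) / x) b c = fun p u => (Hw val b c p u + Hw val' b c p u) / x := by
  funext p u
  unfold Hw
  split_ifs with h
  · unfold HP vl
    rw [← sum_add_distrib, sum_div]
    refine sum_congr rfl fun v _ => ?_
    ring
  · ring

/-- joint convergence to independent Brownian motions -/
theorem joint_nf (K : Type) [Field K] [NumberField K] (ι : Type) [Fintype ι] [DecidableEq ι] (J : Type) [Fintype J] [DecidableEq J]
    (P₀ : ℕ) (κ : J → ℝ) (B : ℝ) (hB : 0 ≤ B) (I : Finset ℝ≥0) (hI : ∀ s ∈ I, 0 < s ∧ s ≤ 1) (x : J × I → ℝ) (ε : ℝ) (hε : 0 < ε) :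
    ∃ X₁ : ℕ, ∀ X : ℕ, X₁ ≤ X → ∀ (b : Fin (Module.finrank ℚ K) → 𝓞 K), (∀ x : 𝓞 K, ∃ a : Fin (Module.finrank ℚ K) → ℤ, x = ∑ j, (a j : 𝓞 K) * b j) →
    ∀ (N : ι × Fin (Module.finrank ℚ K) → ℤ) (L : ι × Fin (Module.finrank ℚ K) → ℕ), (∀ i, (X : ℝ) ^ 5 ≤ L i) →
    ∀ val : J → HeightOneSpectrum (𝓞 K) → (ι → 𝓞 K) → ℝ, (∀ j, Loc2 K ι P₀ (κ j) B (val j)) →
    (∀ j k, j ≠ k → Loc2 K ι P₀ ((κ j + κ k) / Real.sqrt 2) B (fun v t => (val j v t + val k v t) / Real.sqrt 2)) →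
    ∀ (E : Finset (ι × Fin (Module.finrank ℚ K) → ℤ)), (∀ n, n ∈ E ↔ n ∈ kbox N L ∧ ∀ a : J × I,
      (∑ v ∈ SX K (tm X (a.2 : ℝ≥0)), val a.1 v (comb b n) - κ a.1 * (a.2 : ℝ≥0) * Real.log (Real.log X)) / Real.sqrt (Real.log (Real.log X)) ≤ x a) →
    |(E.card : ℝ) / ∏ i, (L i : ℝ) - ∏ j, W I (fun s => x (j, s))| ≤ ε := by
  classical
  have h1 := fun j => nf_data K ι P₀ (κ j) B hB
  choose M₁ hM₁ using h1
  have h2 := fun a : J × J => nf_data K ι P₀ ((κ a.1 + κ a.2) / Real.sqrt 2) B hB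
  choose M₂ hM₂ using h2
  obtain ⟨M, hM⟩ : ∃ M : ℝ, M = ∑ j, |M₁ j| + ∑ a, |M₂ a| := ⟨_, rfl⟩
  have hMj : ∀ j, M₁ j ≤ M := by
    intro j
    have e1 := single_le_sum (f := fun j => |M₁ j|) (fun j _ => abs_nonneg _) (mem_univ j)
    have e2 : 0 ≤ ∑ a, |M₂ a| := sum_nonneg fun a _ => abs_nonneg _
    have e3 := le_abs_self (M₁ j)
    have e4 : |M₁ j| ≤ ∑ j, |M₁ j| := e1
    linarith
  have hMa : ∀ a, M₂ a ≤ M := by
    intro a
    have e1 := single_le_sum (f := fun a => |M₂ a|) (fun j _ => abs_nonneg _) (mem_univ a)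
    have e2 : 0 ≤ ∑ j, |M₁ j| := sum_nonneg fun a _ => abs_nonneg _
    have e3 := le_abs_self (M₂ a)
    have e4 : |M₂ a| ≤ ∑ a, |M₂ a| := e1
    linarith
  have hM0 : 0 ≤ M := by
    rw [hM]
    positivity
  obtain ⟨X₁, h⟩ := joint (κ := ι × Fin (Module.finrank ℚ K)) (B := Module.finrank ℚ K * B + 1) (κ₀ := κ) (R := (1 : Matrix J J ℝ)) (M := 2 * M)
    (by positivity) one_psd (fun j => by rw [Matrix.one_apply_eq]; exact one_pos) I hI x ε hε
  refine ⟨max 16 X₁, fun X hX b hb N L hL val hl1 hl2 E hE => ?_⟩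
  have hX16 : 16 ≤ X := (le_max_left _ _).trans hX
  have hXX₁ : X₁ ≤ X := (le_max_right _ _).trans hX
  have hd := fun j => hM₁ j X hX16 b hb N L hL (val j) (hl1 j)
  have h3 := h
    { X := X
      N := N
      L := L
      H := fun j => Hw (val j) b c1
      F := fun j Y t => ∑ v ∈ SX K Y, val j v (comb b t)
      hX := hX16
      hL := hL
      hH := fun j p hp u => (hd j).1 p hp u
      h2 := fun j Y hY => ((hd j).2.1 Y hY).trans (by linarith [hMj j])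
      h3 := fun j k Y hY => by
        by_cases hjk : j = k
        · subst hjk
          rw [Matrix.one_apply_eq, one_mul]
          have e1 : ∀ p ∈ PP Y, cv (Hw (val j) b c1) (Hw (val j) b c1) p = vr (Hw (val j) b c1) p := by
            intro p hp
            have : Fact p.Prime := ⟨(mem_filter.1 hp).2⟩
            unfold cv vr
            rw [mn_eq, mn_eq, mn_eq]
            have e2 : (fun u => Hw (val j) b c1 p u * Hw (val j) b c1 p u) = fun u => Hw (val j) b c1 p u ^ 2 := by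
              funext u
              ring
            rw [e2]
            ring
          rw [sum_congr rfl e1]
          exact ((hd j).2.2.1 Y hY).trans (by linarith [hMj j])
        · rw [Matrix.one_apply_ne hjk, zero_mul, sub_zero]
          have e1 := (hM₂ (j, k) X hX16 b hb N L hL (fun v t => (val j v t + val k v t) / Real.sqrt 2) (hl2 j k hjk)).2.2.1 Y hY
          rw [Hw_add] at e1
          have e2 : ∀ p ∈ PP Y, vr (fun p u => (Hw (val j) b c1 p u + Hw (val k) b c1 p u) / Real.sqrt 2) p =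
              (vr (Hw (val j) b c1) p + vr (Hw (val k) b c1) p) / 2 + cv (Hw (val j) b c1) (Hw (val k) b c1) p := by
            intro p hp
            have : Fact p.Prime := ⟨(mem_filter.1 hp).2⟩
            exact vr_add _ _ p
          rw [sum_congr rfl e2, sum_add_distrib, ← sum_div, sum_add_distrib] at e1
          have e3 := (hd j).2.2.1 Y hY
          have e4 := (hd k).2.2.1 Y hY
          have e5 := hMj j
          have e6 := hMj k
          have e7 := hMa (j, k)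
          rw [abs_le] at e1 e3 e4 ⊢
          constructor <;> linarith
      hF := fun j Y hY hYX => ((hd j).2.2.2 Y hY hYX).trans (by linarith [hMj j]) } hXX₁
  have h4 : (kbox N L).filter (fun t => ∀ a : J × I, (∑ v ∈ SX K (tm X (a.2 : ℝ≥0)), val a.1 v (comb b t) - κ a.1 * (a.2 : ℝ≥0) * Real.log (Real.log X)) /
      Real.sqrt (Real.log (Real.log X)) ≤ x a) = E := by
    ext n
    rw [mem_filter, hE]
  rw [← WJ_one, ← h4]
  exact h3

end Q282.MJ
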