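import Pool.Agent.Q282.PX.Comb
import Pool.Agent.Q282.MJ.Main

/-!
# The constituents of the cohomology of products of hyperelliptic curves
-/

set_option autoImplicit false
set_option linter.unusedSectionVars false

namespace Q282.MJ

open Finset NumberField IsDedekindDomain Polynomial
open Q282.JK Q282.PX Q282.CL
open Pool.Agent.H341R2.Sharp (T)

section finite

variable {F : Type} [Field F] [Fintype F] [DecidableEq F] {n : ℕ}

lemma zk_single (𝒞 : Finset (Fin n → Fin 3)) (f : Fin n → F[X]) (k : ℕ) : zk 𝒞 f k = ∑ c ∈ 𝒞, zk {c} f k := by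
  unfold zk
  refine sum_congr rfl fun c _ => ?_
  rw [sum_singleton]

lemma lval_summable (hF : ringChar F ≠ 2) (𝒞 : Finset (Fin n → Fin 3)) (f : Fin n → F[X]) (a : ℝ) (ha : 1 ≤ a)
    (hT : ∀ j k, 1 ≤ k → |(T (f j) k : ℝ)| ≤ a * (Real.sqrt (Fintype.card F)) ^ k) :
    Summable fun k : ℕ => zk 𝒞 f (k + 1) / ((k + 1) * (Real.sqrt (Fintype.card F)) ^ (k + 1)) := by
  obtain ⟨s, hs⟩ : ∃ s : ℝ, s = Real.sqrt (Fintype.card F) := ⟨_, rfl⟩
  obtain ⟨M, hM⟩ : ∃ M : ℝ, M = 𝒞.card * a ^ n := ⟨_, rfl⟩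
  have hM0 : 0 ≤ M := by rw [hM]; positivity
  have hs32 : 3 / 2 ≤ s := by
    rw [hs]
    refine Real.le_sqrt_of_sq_le ?_
    have := card_ge hF
    norm_num
    linarith
  have hs0 : 0 < s := by linarith
  have hz := zk_le 𝒞 f a ha hT
  rw [← hM] at hz
  rw [← hs]
  have hterm : ∀ k : ℕ, ‖zk 𝒞 f (k + 1) / ((k + 1) * s ^ (k + 1))‖ ≤ M / s * (1 / s) ^ k := by
    intro k
    rw [Real.norm_eq_abs, abs_div, abs_of_pos (by positivity : 0 < ((k : ℝ) + 1) * s ^ (k + 1))]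
    have h1 : M / s * (1 / s) ^ k = M / s ^ (k + 1) := by
      rw [one_div, inv_pow, pow_succ]
      field_simp
    rw [h1]
    refine div_le_div₀ hM0 (hz (k + 1) (by omega)) (by positivity) ?_
    have h2 : (1 : ℝ) ≤ (k : ℝ) + 1 := by
      have : (0 : ℝ) ≤ k := Nat.cast_nonneg k
      linarith
    have h3 : 0 < s ^ (k + 1) := by positivity
    nlinarith
  have hgeo : Summable fun k : ℕ => M / s * (1 / s) ^ k :=
    (summable_geometric_of_lt_one (by positivity) (by rw [div_lt_one hs0]; linarith)).mul_left _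
  exact Summable.of_norm_bounded hgeo hterm

/-- additivity -/
lemma lval_sum (hF : ringChar F ≠ 2) (𝒞 : Finset (Fin n → Fin 3)) (f : Fin n → F[X]) (a : ℝ) (ha : 1 ≤ a)
    (hT : ∀ j k, 1 ≤ k → |(T (f j) k : ℝ)| ≤ a * (Real.sqrt (Fintype.card F)) ^ k) : lval 𝒞 f = ∑ c ∈ 𝒞, lval {c} f := by
  unfold lval
  rw [← Summable.tsum_finsetSum (fun c _ => lval_summable hF {c} f a ha hT)]
  refine tsum_congr fun k => ?_
  rw [zk_single, sum_div]

/-- the traces are bounded -/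
lemma hT_fpol (hF : ringChar F ≠ 2) (f : Fin n → F[X]) (g : Fin n → ℕ) (hmon : ∀ j, (f j).Monic) (hdeg : ∀ j, (f j).natDegree = 2 * g j + 1) :
    ∃ a : ℝ, 1 ≤ a ∧ ∀ j k, 1 ≤ k → |(T (f j) k : ℝ)| ≤ a * (Real.sqrt (Fintype.card F)) ^ k := by
  refine ⟨1 + ∑ j, (5 * (2 * g j + 1) : ℝ), ?_, fun j k hk => ?_⟩
  · have : 0 ≤ ∑ j, (5 * (2 * g j + 1) : ℝ) := sum_nonneg fun j _ => by positivity
    linarith
  · have h4 := (Pool.Agent.H341R2.Sharp.T_bound hF (hmon j) (by rw [hdeg]; omega) (odd_ns (hmon j) (hdeg j)) k hk).1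
    rw [hdeg] at h4
    have h5 := single_le_sum (f := fun j => (5 * (2 * g j + 1) : ℝ)) (fun j _ => by positivity) (mem_univ j)
    have h6 : (5 * (2 * g j + 1) : ℝ) ≤ ∑ j, (5 * (2 * g j + 1) : ℝ) := h5
    have h7 : ((5 * (2 * g j + 1) : ℝ)) * Real.sqrt (Fintype.card F) ^ k ≤ (1 + ∑ j, (5 * (2 * g j + 1) : ℝ)) * Real.sqrt (Fintype.card F) ^ k :=
      mul_le_mul_of_nonneg_right (by linarith) (by positivity)
    refine h4.trans (le_trans (le_of_eq ?_) h7)
    push_cast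
    ring

end finite

section comb

variable {n : ℕ}

/-- the type of a set -/
def cS (S : Finset (Fin n)) : Fin n → Fin 3 := fun j => if j ∈ S then 1 else 0

lemma ones_cS (S : Finset (Fin n)) : ones (cS S) = S := by
  ext j
  unfold ones cS
  rw [mem_filter]
  by_cases h : j ∈ S
  · simp [h]
  · simp [h]

lemma cS_inj {S S' : Finset (Fin n)} (h : cS S = cS S') : S = S' := by
  rw [← ones_cS S, h, ones_cS]

/-- the exponent -/
noncomputable def kS (r : Fin n → ℕ) (S : Finset (Fin n)) : ℝ := (if S.card = 1 then ∑ j ∈ S, (r j : ℝ) else 0) + 1 / 2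

lemma kap_S (r : Fin n → ℕ) (S : Finset (Fin n)) :
    kap {cS S} (fun j => (r j : ℝ)) + (({cS S} : Finset (Fin n → Fin 3)).card : ℝ) / 2 = kS r S := by
  unfold kap kS
  rw [sum_singleton, ones_cS, card_singleton, Nat.cast_one]

lemma kap_SS (r : Fin n → ℕ) {S S' : Finset (Fin n)} (h : S ≠ S') :
    kap {cS S, cS S'} (fun j => (r j : ℝ)) + (({cS S, cS S'} : Finset (Fin n → Fin 3)).card : ℝ) / 2 = kS r S + kS r S' := by
  have h1 : cS S ≠ cS S' := fun h2 => h (cS_inj h2)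
  unfold kap kS
  rw [sum_pair h1, ones_cS, ones_cS, card_pair h1]
  push_cast
  ring

lemma sig_S (S : Finset (Fin n)) : sig {cS S} = 1 := by
  unfold sig
  rw [card_eq_one]
  refine ⟨(cS S, cS S), ?_⟩
  ext ⟨c, c'⟩
  simp only [mem_filter, mem_product, mem_singleton, Prod.mk.injEq]
  constructor
  · rintro ⟨h, -⟩
    exact h
  · rintro ⟨rfl, rfl⟩
    exact ⟨⟨rfl, rfl⟩, rfl⟩

lemma sig_SS {S S' : Finset (Fin n)} (h : S ≠ S') : sig {cS S, cS S'} = 2 := by
  have h1 : cS S ≠ cS S' := fun h2 => h (cS_inj h2)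
  unfold sig
  rw [card_eq_two]
  refine ⟨(cS S, cS S), (cS S', cS S'), fun h2 => h1 (Prod.mk.inj h2).1, ?_⟩
  ext ⟨c, c'⟩
  simp only [mem_filter, mem_product, mem_singleton, mem_insert, Prod.mk.injEq]
  constructor
  · rintro ⟨⟨h2 | h2, h3 | h3⟩, h4⟩
    · exact Or.inl ⟨h2, h3⟩
    · rw [h2, h3, ones_cS, ones_cS] at h4
      exact absurd h4 h
    · rw [h2, h3, ones_cS, ones_cS] at h4
      exact absurd h4.symm h
    · exact Or.inr ⟨h2, h3⟩
  · rintro (⟨rfl, rfl⟩ | ⟨rfl, rfl⟩)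
    · exact ⟨⟨Or.inl rfl, Or.inl rfl⟩, rfl⟩
    · exact ⟨⟨Or.inr rfl, Or.inr rfl⟩, rfl⟩

end comb

section

variable {K : Type} [Field K] [NumberField K] {n : ℕ}

/-- The trace of the `k`-th power of the Frobenius at `v` on the tensor product of the `H^1(C_j)`, `j ∈ S`, where `C_j` is the curve
`y ^ 2 = f_j(x)` together with one point at infinity: the product of the `q ^ k + 1 - #C_j(F_k)`, `j ∈ S`. Here `q = N v`, `F_k` is
the field with `q ^ k` elements and `#C_j(F_k) = points (f j) v k + 1`. -/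
noncomputable def traceS (f : Fin n → (𝓞 K)[X]) (v : HeightOneSpectrum (𝓞 K)) (S : Finset (Fin n)) (k : ℕ) : ℝ :=
  ∏ j ∈ S, ((Ideal.absNorm v.asIdeal : ℝ) ^ k - points (f j) v k)

/-- For a set `S` with an odd number of elements: the reciprocal of the Euler factor at `v` of `L(⊗_{j ∈ S} H^1(C_j), s)` at the
centre `s = m`, `m = (|S| + 1) / 2`: the value at `T = q ^ (-m)` of `det (1 - Frob_v T) = exp (- ∑_{k ≥ 1} trace (Frob_v ^ k) T ^ k / k)`. -/
noncomputable def factorS (f : Fin n → (𝓞 K)[X]) (S : Finset (Fin n)) (v : HeightOneSpectrum (𝓞 K)) : ℝ :=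
  Real.exp (-∑' k : ℕ, traceS f v S (k + 1) / ((k + 1) * (Ideal.absNorm v.asIdeal : ℝ) ^ ((S.card + 1) / 2 * (k + 1))))

/-- The product of the values `factorS f S v` over the primes `v` of `K` with `GoodP f v` and `N v ≤ X`. -/
noncomputable def productS (f : Fin n → (𝓞 K)[X]) (S : Finset (Fin n)) (X : ℕ) : ℝ :=
  ∏ᶠ v ∈ {v : HeightOneSpectrum (𝓞 K) | GoodP f v ∧ Ideal.absNorm v.asIdeal ≤ X}, factorS f S v

open Classical in
/-- the logarithm of the factor of a set of types -/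
noncomputable def valC (𝒞 : Finset (Fin n → Fin 3)) (f : Fin n → (𝓞 K)[X]) (v : HeightOneSpectrum (𝓞 K)) : ℝ :=
  if GoodP f v then @lval (Res v) _ (Fintype.ofFinite _) (Classical.decEq _) n 𝒞 (fun j => (f j).map (red v)) else 0

lemma trace_zkS (f : Fin n → (𝓞 K)[X]) (v : HeightOneSpectrum (𝓞 K)) [Fintype (Res v)] [DecidableEq (Res v)] (h2 : (2 : Res v) ≠ 0)
    (S : Finset (Fin n)) (hS : Odd S.card) (k : ℕ) (hk : 1 ≤ k) :
    -(traceS f v S k / (Ideal.absNorm v.asIdeal : ℝ) ^ ((S.card + 1) / 2 * k)) =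
      zk {cS S} (fun j => (f j).map (red v)) k / (Real.sqrt (Fintype.card (Res v))) ^ k := by
  unfold traceS zk
  rw [sum_singleton, ones_cS]
  have hpt : ∀ j, (Ideal.absNorm v.asIdeal : ℝ) ^ k - points (f j) v k = -(T ((f j).map (red v)) k : ℝ) := by
    intro j
    have h3 := pts_eq (res_ring v h2) ((f j).map (red v)) k hk
    unfold points
    rw [res_card v] at h3
    rw [← h3]
    ring
  rw [prod_congr rfl (fun j _ => hpt j), prod_neg, hS.neg_one_pow, ← res_card v]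
  obtain ⟨s, hs⟩ : ∃ s : ℝ, s = Real.sqrt (Fintype.card (Res v)) := ⟨_, rfl⟩
  have hq0 : (0 : ℝ) < Fintype.card (Res v) := by exact_mod_cast Fintype.card_pos
  have hs0 : 0 < s := by
    rw [hs]
    exact Real.sqrt_pos.2 hq0
  have hsq : (Fintype.card (Res v) : ℝ) = s ^ 2 := by
    rw [hs, Real.sq_sqrt hq0.le]
  rw [hsq, Real.sqrt_sq hs0.le, prod_div_distrib, prod_const]
  obtain ⟨P, hP⟩ : ∃ P : ℝ, P = ∏ j ∈ S, (T ((f j).map (red v)) k : ℝ) := ⟨_, rfl⟩
  rw [← hP]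
  have e0 : 2 * ((S.card + 1) / 2) = S.card + 1 := by
    obtain ⟨l, hl⟩ := hS
    omega
  have e1 : (s ^ 2) ^ ((S.card + 1) / 2 * k) = (s ^ k) ^ (S.card + 1) := by
    obtain ⟨m, hm⟩ : ∃ m, m = (S.card + 1) / 2 := ⟨_, rfl⟩
    rw [← hm] at e0 ⊢
    rw [← e0, ← pow_mul, ← pow_mul]
    congr 1
    ring
  rw [e1, pow_succ]
  have hsk : 0 < s ^ k := by positivity
  field_simp

lemma valS_eq (f : Fin n → (𝓞 K)[X]) (v : HeightOneSpectrum (𝓞 K)) [Fintype (Res v)] [DecidableEq (Res v)] (h2 : (2 : Res v) ≠ 0)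
    (S : Finset (Fin n)) (hS : Odd S.card) :
    -∑' k : ℕ, traceS f v S (k + 1) / ((k + 1) * (Ideal.absNorm v.asIdeal : ℝ) ^ ((S.card + 1) / 2 * (k + 1))) =
      lval {cS S} (fun j => (f j).map (red v)) := by
  unfold lval
  rw [← tsum_neg]
  refine tsum_congr fun k => ?_
  have h1 := trace_zkS f v h2 S hS (k + 1) (by omega)
  rw [mul_comm ((k : ℝ) + 1), ← div_div, mul_comm ((k : ℝ) + 1), ← div_div, ← h1]
  ring

/-- the logarithm of the product -/
theorem log_productS (f : Fin n → (𝓞 K)[X]) (S : Finset (Fin n)) (hS : Odd S.card) (X : ℕ) :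
    0 < productS f S X ∧ Real.log (productS f S X) = ∑ v ∈ Q282.GK.SX K X, valC {cS S} f v := by
  classical
  have h1 : productS f S X = ∏ v ∈ (Q282.GK.SX K X).filter (GoodP f), factorS f S v := by
    unfold productS
    refine finprod_mem_eq_prod_of_inter_mulSupport_eq _ ?_
    congr 1
    ext v
    rw [Set.mem_ofPred_eq, mem_coe, mem_filter, Q282.GK.mem_SX]
    exact and_comm
  have hpos : ∀ v ∈ (Q282.GK.SX K X).filter (GoodP f), 0 < factorS f S v := fun v _ => Real.exp_pos _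
  refine ⟨by rw [h1]; exact prod_pos hpos, ?_⟩
  rw [h1, Real.log_prod (fun v hv => (hpos v hv).ne'), sum_filter]
  refine sum_congr rfl fun v _ => ?_
  unfold valC
  split_ifs with h
  · unfold factorS
    rw [Real.log_exp]
    let _ : Fintype (Res v) := Fintype.ofFinite _
    exact valS_eq f v ((two_iff v).1 h.1) S hS
  · rfl

/-- the values for the cohomology groups -/
lemma valP_C (f : Fin n → (𝓞 K)[X]) (m : ℕ) (hm : 1 ≤ m) (v : HeightOneSpectrum (𝓞 K)) :
    valP f m v = valC (types n (2 * m - 1)) f v := by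
  classical
  unfold valP valC
  by_cases h : GoodP f v
  · rw [if_pos h, if_pos h]
    let _ : Fintype (Res v) := Fintype.ofFinite _
    exact valP_eq f v ((two_iff v).1 h.1) m hm
  · rw [if_neg h, if_neg h]

/-- The number of the summands of `H^(2m-1)(C_1 × ... × C_n)` isomorphic to a twist of the tensor product of the `H^1(C_j)`,
`j ∈ S`. -/
def mult (n m : ℕ) (S : Finset (Fin n)) : ℕ := ((types n (2 * m - 1)).filter fun c => ones c = S).card

/-- the formula of Künneth -/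
lemma valC_sum (f : Fin n → (𝓞 K)[X]) (g : Fin n → ℕ) (hmon : ∀ j, (f j).Monic) (hdeg : ∀ j, (f j).natDegree = 2 * g j + 1)
    (𝒞 : Finset (Fin n → Fin 3)) (v : HeightOneSpectrum (𝓞 K)) : valC 𝒞 f v = ∑ c ∈ 𝒞, valC {cS (ones c)} f v := by
  classical
  unfold valC
  by_cases h : GoodP f v
  · rw [if_pos h]
    have h1 : ∀ c ∈ 𝒞, (if GoodP f v then @lval (Res v) _ (Fintype.ofFinite _) (Classical.decEq _) n {cS (ones c)} (fun j => (f j).map (red v)) else 0) =
        @lval (Res v) _ (Fintype.ofFinite _) (Classical.decEq _) n {c} (fun j => (f j).map (red v)) := by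
      intro c _
      rw [if_pos h]
      unfold lval zk
      refine tsum_congr fun k => ?_
      rw [sum_singleton, sum_singleton, ones_cS]
    rw [sum_congr rfl h1]
    let _ : Fintype (Res v) := Fintype.ofFinite _
    have hF := res_ring v ((two_iff v).1 h.1)
    obtain ⟨a, ha, hT⟩ := hT_fpol hF (fun j => (f j).map (red v)) g (fun j => (hmon j).map _)
      (fun j => by rw [(hmon j).natDegree_map, hdeg])
    convert lval_sum hF 𝒞 (fun j => (f j).map (red v)) a ha hT using 2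
  · rw [if_neg h]
    symm
    exact sum_eq_zero fun c _ => if_neg h

/-- the formula of Künneth for the products -/
theorem log_kunneth (f : Fin n → (𝓞 K)[X]) (g : Fin n → ℕ) (hmon : ∀ j, (f j).Monic) (hdeg : ∀ j, (f j).natDegree = 2 * g j + 1)
    (m : ℕ) (hm : 1 ≤ m) (X : ℕ) :
    Real.log (productP f m X) = ∑ S ∈ (univ : Finset (Finset (Fin n))).filter (fun S => Odd S.card), mult n m S * Real.log (productS f S X) := by
  classical
  rw [(log_productP f m X).2]
  have h1 : ∀ v, valP f m v = ∑ S ∈ (univ : Finset (Finset (Fin n))).filter (fun S => Odd S.card), mult n m S * valC {cS S} f v := by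
    intro v
    rw [valP_C f m hm, valC_sum f g hmon hdeg]
    have h2 : ∀ c ∈ types n (2 * m - 1), ones c ∈ (univ : Finset (Finset (Fin n))).filter (fun S => Odd S.card) := by
      intro c hc
      rw [mem_filter]
      exact ⟨mem_univ _, (types_odd hm hc).2⟩
    rw [← sum_fiberwise_of_maps_to h2]
    refine sum_congr rfl fun S _ => ?_
    have h3 : ∀ c ∈ (types n (2 * m - 1)).filter (fun c => ones c = S), valC {cS (ones c)} f v = valC {cS S} f v := by
      intro c hc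
      rw [(mem_filter.1 hc).2]
    rw [sum_congr rfl h3, sum_const, nsmul_eq_mul]
    rfl
  rw [sum_congr rfl fun v _ => h1 v, sum_comm]
  refine sum_congr rfl fun S hS => ?_
  rw [(log_productS f S (mem_filter.1 hS).2 X).2, mul_sum]

variable {g r : Fin n → ℕ}

/-- the local data -/
theorem loc_C (K : Type) [Field K] [NumberField K] (n : ℕ) (𝒞 : Finset (Fin n → Fin 3)) (hne : ∀ c ∈ 𝒞, (ones c).Nonempty)
    (g r : Fin n → ℕ) (hg : ∀ j, 1 ≤ g j) (hr : ∀ j, r j ≤ g j) (hσ : 0 < sig 𝒞) : ∃ B : ℝ, 0 < B ∧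
    Q282.MN.Loc2 K (Ix g r) 3 ((kap 𝒞 (fun j => (r j : ℝ)) + 𝒞.card / 2) / Real.sqrt (sig 𝒞)) B
      (fun v t => valC 𝒞 (fj t) v / Real.sqrt (sig 𝒞)) := by
  classical
  obtain ⟨B, hB0, hB⟩ := locP_all n 𝒞 hne g r hg hr
  have hval : ∀ (v : HeightOneSpectrum (𝓞 K)) (t : Ix g r → 𝓞 K),
      valC 𝒞 (fj t) v = @locP (Res v) _ (Fintype.ofFinite _) (Classical.decEq _) n g r 𝒞 (fun i => red v (t i)) := by
    intro v t
    let _ : Fintype (Res v) := Fintype.ofFinite _
    unfold valC locP GoodP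
    have h1 : ∀ j, (fj t j).map (red v) = fj (fun i => red v (t i)) j := fun j => fpol_map (red v) _
    rw [two_iff]
    by_cases hg2 : (2 : Res v) ≠ 0 ∧ ∀ j, Squarefree ((fj t j).map (red v))
    · rw [if_pos hg2, if_pos ⟨hg2.1, fun j => by rw [← h1]; exact hg2.2 j⟩]
      congr 1
      funext j
      exact h1 j
    · rw [if_neg hg2, if_neg]
      rintro ⟨h3, h4⟩
      exact hg2 ⟨h3, fun j => by rw [h1]; exact h4 j⟩
  refine ⟨B + 1, by positivity, fun v => ?_⟩
  let _ : Fintype (Res v) := Fintype.ofFinite _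
  obtain ⟨h1, h2⟩ := hB (Res v)
  obtain ⟨σ, hσ'⟩ : ∃ σ : ℝ, σ = Real.sqrt (sig 𝒞) := ⟨_, rfl⟩
  have hσ1 : 1 ≤ σ := by
    rw [hσ']
    refine Real.one_le_sqrt.2 ?_
    exact_mod_cast hσ
  have hσ2 : σ ^ 2 = sig 𝒞 := by
    rw [hσ', Real.sq_sqrt (Nat.cast_nonneg _)]
  rw [← hσ']
  have hσ0 : 0 < σ := by linarith
  refine ⟨Res v, inferInstance, inferInstance, red v, fun u => locP 𝒞 u / σ, red_surj v, Ideal.mk_ker, res_char v,
    res_card v, fun t => by
      show valC 𝒞 (fj t) v / σ = locP 𝒞 (fun i => red v (t i)) / σ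
      rw [hval v t], ?_, ?_⟩
  · intro u
    rw [abs_div, abs_of_pos hσ0]
    have h3 := h1 u
    have h4 : |locP 𝒞 u| / σ ≤ |locP 𝒞 u| := div_le_self (abs_nonneg _) hσ1
    exact h4.trans (h3.trans (div_le_div_of_nonneg_right (by linarith) (Real.sqrt_nonneg _)))
  · intro h3
    obtain ⟨h4, h5⟩ := h2 (ring_two v h3)
    have hq0 : (0 : ℝ) < Fintype.card (Res v) := by exact_mod_cast Fintype.card_pos
    have hq32 : (0 : ℝ) < (Fintype.card (Res v) : ℝ) ^ (3 / 2 : ℝ) := by positivity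
    have hle : B / (Fintype.card (Res v) : ℝ) ^ (3 / 2 : ℝ) ≤ (B + 1) / (Fintype.card (Res v) : ℝ) ^ (3 / 2 : ℝ) :=
      div_le_div_of_nonneg_right (by linarith) hq32.le
    have hle0 : 0 ≤ (B + 1) / (Fintype.card (Res v) : ℝ) ^ (3 / 2 : ℝ) := by positivity
    constructor
    · have e1 : (fun u : Ix g r → Res v => locP 𝒞 u / σ) = fun u => (1 / σ) * locP 𝒞 u := by
        funext u
        ring
      rw [e1, Q282.CL.av_mul]
      have e2 : ∀ a b : ℝ, 1 / σ * a - b / σ / (Fintype.card (Res v) : ℝ) = (1 / σ) * (a - b / (Fintype.card (Res v) : ℝ)) := by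
        intro a b
        field_simp
      rw [e2, abs_mul, abs_of_pos (by positivity : 0 < 1 / σ)]
      have e3 : 1 / σ ≤ 1 := by
        rw [div_le_one hσ0]
        exact hσ1
      calc _ ≤ 1 * ((B + 1) / (Fintype.card (Res v) : ℝ) ^ (3 / 2 : ℝ)) :=
            mul_le_mul e3 (h4.trans hle) (abs_nonneg _) zero_le_one
        _ = _ := one_mul _
    · have e1 : (fun u : Ix g r → Res v => (locP 𝒞 u / σ) ^ 2) = fun u => (1 / σ ^ 2) * locP 𝒞 u ^ 2 := by
        funext u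
        rw [div_pow]
        ring
      rw [e1, Q282.CL.av_mul]
      have e2 : ∀ a : ℝ, 1 / σ ^ 2 * a - 1 / (Fintype.card (Res v) : ℝ) = (1 / σ ^ 2) * (a - σ ^ 2 / (Fintype.card (Res v) : ℝ)) := by
        intro a
        field_simp
      rw [e2, abs_mul, abs_of_pos (by positivity : 0 < 1 / σ ^ 2), hσ2]
      have e3 : 1 / (sig 𝒞 : ℝ) ≤ 1 := by
        rw [← hσ2, div_le_one (by positivity)]
        exact one_le_pow₀ hσ1
      calc _ ≤ 1 * ((B + 1) / (Fintype.card (Res v) : ℝ) ^ (3 / 2 : ℝ)) :=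
            mul_le_mul e3 (h5.trans hle) (abs_nonneg _) zero_le_one
        _ = _ := one_mul _

lemma fj_monic (hr : ∀ j, r j ≤ g j) {R : Type} [CommRing R] [Nontrivial R] (t : Ix g r → R) (j : Fin n) : (fj t j).Monic :=
  fpol_monic (by have := hr j; omega) _

lemma fj_natDegree (hr : ∀ j, r j ≤ g j) {R : Type} [CommRing R] [Nontrivial R] (t : Ix g r → R) (j : Fin n) :
    (fj t j).natDegree = 2 * g j + 1 := by
  have h1 := hr j
  unfold fj
  rw [fpol_natDegree (by omega)]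
  omega

/-- the local data of the constituents -/
theorem loc_S (K : Type) [Field K] [NumberField K] (n : ℕ) (g r : Fin n → ℕ) (hg : ∀ j, 1 ≤ g j) (hr : ∀ j, r j ≤ g j) :
    ∃ B : ℝ, 0 < B ∧ (∀ S : Finset (Fin n), S.Nonempty → Q282.MN.Loc2 K (Ix g r) 3 (kS r S) B (fun v t => valC {cS S} (fj t) v)) ∧
    ∀ S S' : Finset (Fin n), S.Nonempty → S'.Nonempty → S ≠ S' →
      Q282.MN.Loc2 K (Ix g r) 3 ((kS r S + kS r S') / Real.sqrt 2) B (fun v t => (valC {cS S} (fj t) v + valC {cS S'} (fj t) v) / Real.sqrt 2) := by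
  classical
  have hmono : ∀ {κ B B' : ℝ} {val : HeightOneSpectrum (𝓞 K) → (Ix g r → 𝓞 K) → ℝ}, B ≤ B' → Q282.MN.Loc2 K (Ix g r) 3 κ B val →
      Q282.MN.Loc2 K (Ix g r) 3 κ B' val := by
    intro κ B B' val hBB h v
    obtain ⟨F, i1, i2, π, G, h1, h2, h3, h4, h5, h6, h7⟩ := h v
    refine ⟨F, i1, i2, π, G, h1, h2, h3, h4, h5, fun u => (h6 u).trans (div_le_div_of_nonneg_right hBB (Real.sqrt_nonneg _)), fun h8 => ?_⟩
    have h9 : B / (Fintype.card F : ℝ) ^ (3 / 2 : ℝ) ≤ B' / (Fintype.card F : ℝ) ^ (3 / 2 : ℝ) :=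
      div_le_div_of_nonneg_right hBB (by positivity)
    exact ⟨(h7 h8).1.trans h9, (h7 h8).2.trans h9⟩
  have h1 : ∀ S : Finset (Fin n), ∃ B : ℝ, 0 < B ∧ (S.Nonempty → Q282.MN.Loc2 K (Ix g r) 3 (kS r S) B (fun v t => valC {cS S} (fj t) v)) := by
    intro S
    by_cases hS : S.Nonempty
    · obtain ⟨B, hB, h⟩ := loc_C K n {cS S} (fun c hc => by rw [mem_singleton.1 hc, ones_cS]; exact hS) g r hg hr (by rw [sig_S]; exact one_pos)
      refine ⟨B, hB, fun _ => ?_⟩
      rw [kap_S, sig_S, Nat.cast_one, Real.sqrt_one] at h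
      simp only [div_one] at h
      exact h
    · exact ⟨1, one_pos, fun h => absurd h hS⟩
  have h2 : ∀ a : Finset (Fin n) × Finset (Fin n), ∃ B : ℝ, 0 < B ∧ (a.1.Nonempty → a.2.Nonempty → a.1 ≠ a.2 →
      Q282.MN.Loc2 K (Ix g r) 3 ((kS r a.1 + kS r a.2) / Real.sqrt 2) B (fun v t => (valC {cS a.1} (fj t) v + valC {cS a.2} (fj t) v) / Real.sqrt 2)) := by
    rintro ⟨S, S'⟩
    by_cases hS : S.Nonempty ∧ S'.Nonempty ∧ S ≠ S'
    · obtain ⟨hS1, hS2, hne⟩ := hS
      have hcne : cS S ≠ cS S' := fun h => hne (cS_inj h)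
      obtain ⟨B, hB, h⟩ := loc_C K n {cS S, cS S'} (fun c hc => by
        rw [mem_insert, mem_singleton] at hc
        rcases hc with rfl | rfl
        · rw [ones_cS]; exact hS1
        · rw [ones_cS]; exact hS2) g r hg hr (by rw [sig_SS hne]; norm_num)
      refine ⟨B, hB, fun _ _ _ => ?_⟩
      rw [kap_SS r hne, sig_SS hne] at h
      push_cast at h
      have e1 : ∀ (v : HeightOneSpectrum (𝓞 K)) (t : Ix g r → 𝓞 K), valC {cS S, cS S'} (fj t) v = valC {cS S} (fj t) v + valC {cS S'} (fj t) v := by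
        intro v t
        rw [valC_sum (fj t) g (fj_monic hr t) (fj_natDegree hr t), sum_pair hcne, ones_cS, ones_cS]
      simp only [e1] at h
      exact h
    · exact ⟨1, one_pos, fun h3 h4 h5 => absurd ⟨h3, h4, h5⟩ hS⟩
  choose B₁ hB₁ hl₁ using h1
  choose B₂ hB₂ hl₂ using h2
  refine ⟨∑ S, B₁ S + ∑ a, B₂ a + 1, ?_, fun S hS => ?_, fun S S' hS hS' hne => ?_⟩
  · have h3 : 0 ≤ ∑ S, B₁ S := sum_nonneg fun S _ => (hB₁ S).le
    have h4 : 0 ≤ ∑ a, B₂ a := sum_nonneg fun S _ => (hB₂ S).le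
    linarith
  · refine hmono ?_ (hl₁ S hS)
    have h3 := single_le_sum (f := B₁) (fun S _ => (hB₁ S).le) (mem_univ S)
    have h4 : 0 ≤ ∑ a, B₂ a := sum_nonneg fun S _ => (hB₂ S).le
    linarith
  · refine hmono ?_ (hl₂ (S, S') hS hS' hne)
    have h3 := single_le_sum (f := B₂) (fun S _ => (hB₂ S).le) (mem_univ (S, S'))
    have h4 : 0 ≤ ∑ S, B₁ S := sum_nonneg fun S _ => (hB₁ S).le
    linarith

end

end Q282.MJ
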