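import Pool.Agent.Q282.MJ.Abs

/-!
# Independent Brownian motions
-/

set_option autoImplicit false
set_option linter.unusedSectionVars false

namespace Q282.MJ

open Finset Filter MeasureTheory ProbabilityTheory
open BrownianReal
open scoped NNReal Topology
open Q282.CL

variable {J : Type} [Fintype J] [DecidableEq J] (I : Finset ℝ≥0)

/-- the joined vectors -/
noncomputable def jn (y : J → EuclideanSpace ℝ I) : EuclideanSpace ℝ (J × I) := WithLp.toLp 2 fun a : J × I => y a.1 a.2

lemma jn_meas : Measurable (jn (J := J) I) := by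
  unfold jn
  refine (WithLp.measurable_toLp 2 _).comp ?_
  refine measurable_pi_lambda _ fun a => ?_
  have h1 : Measurable fun y : J → EuclideanSpace ℝ I => y a.1 := measurable_pi_apply a.1
  have h2 : Measurable fun y : EuclideanSpace ℝ I => y a.2 := (EuclideanSpace.proj (𝕜 := ℝ) a.2).continuous.measurable
  exact h2.comp h1

lemma one_psd : (1 : Matrix J J ℝ).PosSemidef := Matrix.PosSemidef.one

/-- the law of independent Brownian motions -/
lemma nuJ_one : (nuJ (1 : Matrix J J ℝ) I : Measure (EuclideanSpace ℝ (J × I))) =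
    (Measure.pi fun _ : J => (nuE I : Measure (EuclideanSpace ℝ I))).map (jn I) := by
  have : IsProbabilityMeasure ((Measure.pi fun _ : J => (nuE I : Measure (EuclideanSpace ℝ I))).map (jn I)) :=
    Measure.isProbabilityMeasure_map (jn_meas I).aemeasurable
  refine Measure.ext_of_charFun ?_
  funext x
  rw [chr_nuJ I one_psd, charFun_apply, integral_map (jn_meas I).aemeasurable (by fun_prop)]
  have h1 : ∀ y : J → EuclideanSpace ℝ I, Complex.exp (((inner ℝ (jn I y) x : ℝ) : ℂ) * Complex.I) =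
      ∏ j, Complex.exp (((inner ℝ (y j) (WithLp.toLp 2 fun s : I => x (j, s) : EuclideanSpace ℝ I) : ℝ) : ℂ) * Complex.I) := by
    intro y
    rw [← Complex.exp_sum, ← sum_mul, ← Complex.ofReal_sum]
    congr 3
    rw [PiLp.inner_apply, Fintype.sum_prod_type]
    refine sum_congr rfl fun j _ => ?_
    rw [PiLp.inner_apply]
    rfl
  rw [integral_congr_ae (Eventually.of_forall h1),
    integral_fintype_prod_eq_prod (fun j (y : EuclideanSpace ℝ I) => Complex.exp (((inner ℝ y (WithLp.toLp 2 fun s : I => x (j, s) : EuclideanSpace ℝ I) : ℝ) : ℂ) * Complex.I))]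
  have h2 : ∀ j : J, ∫ y : EuclideanSpace ℝ I, Complex.exp (((inner ℝ y (WithLp.toLp 2 fun s : I => x (j, s) : EuclideanSpace ℝ I) : ℝ) : ℂ) * Complex.I)
      ∂(nuE I : Measure (EuclideanSpace ℝ I)) =
      Complex.exp ((-((∑ s : I, ∑ t : I, x (j, s) * x (j, t) * ((min (s : ℝ≥0) (t : ℝ≥0) : ℝ≥0) : ℝ)) / 2) : ℝ) : ℂ) := by
    intro j
    rw [← charFun_apply, chr_nuE]
  rw [prod_congr rfl fun j _ => h2 j, ← Complex.exp_sum, ← Complex.ofReal_sum]
  congr 2
  rw [sum_neg_distrib, ← sum_div, Fintype.sum_prod_type]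
  congr 2
  refine sum_congr rfl fun j _ => ?_
  refine sum_congr rfl fun s _ => ?_
  rw [Fintype.sum_prod_type]
  have h3 : ∀ k : J, ∑ t : I, x (j, s) * x (k, t) * ((1 : Matrix J J ℝ) j k * ((min (s : ℝ≥0) (t : ℝ≥0) : ℝ≥0) : ℝ)) =
      if j = k then ∑ t : I, x (j, s) * x (k, t) * ((min (s : ℝ≥0) (t : ℝ≥0) : ℝ≥0) : ℝ) else 0 := by
    intro k
    split_ifs with h
    · rw [h, Matrix.one_apply_eq]
      exact sum_congr rfl fun t _ => by rw [one_mul]
    · rw [Matrix.one_apply_ne h]
      exact sum_eq_zero fun t _ => by rw [zero_mul, mul_zero]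
  have h4 : ∑ k : J, ∑ t : I, x (j, s) * x (k, t) * ((1 : Matrix J J ℝ) j k * ((min (s : ℝ≥0) (t : ℝ≥0) : ℝ≥0) : ℝ)) =
      ∑ k : J, if j = k then ∑ t : I, x (j, s) * x (k, t) * ((min (s : ℝ≥0) (t : ℝ≥0) : ℝ≥0) : ℝ) else 0 := sum_congr rfl fun k _ => h3 k
  rw [sum_ite_eq, if_pos (mem_univ _)] at h4
  exact h4

/-- the distribution function is a product -/
theorem WJ_one (x : J × I → ℝ) : WJ (1 : Matrix J J ℝ) I x = ∏ j, W I (fun s => x (j, s)) := by
  unfold WJ
  rw [nuJ_one, Measure.map_apply (jn_meas I) (orthJ_closed I x).measurableSet]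
  have h1 : jn (J := J) I ⁻¹' orthJ I x = Set.univ.pi fun j => orth I (fun s => x (j, s)) := by
    ext y
    simp only [Set.mem_preimage, Set.mem_pi, Set.mem_univ, forall_true_left]
    constructor
    · intro h j s
      exact h (j, s)
    · intro h a
      exact h a.1 a.2
  rw [h1, Measure.pi_pi, ENNReal.toReal_prod]
  refine prod_congr rfl fun j _ => ?_
  rw [W_eq]

end Q282.MJ
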