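import Pool.Agent.Q282.MJ.Comp
import Pool.Agent.Q282.JK.RankK

/-!
# The exceptions for products of curves, and the variance
-/

set_option autoImplicit false
set_option linter.unusedSectionVars false

namespace Q282.MJ

open Finset NumberField IsDedekindDomain Polynomial
open Q282.JK Q282.PX Q282.CL

/-- the variance -/
lemma sig_mult {n : ℕ} (𝒞 : Finset (Fin n → Fin 3)) :
    sig 𝒞 = ∑ S : Finset (Fin n), ((𝒞.filter fun c => ones c = S).card) ^ 2 := by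
  classical
  unfold sig
  rw [card_eq_sum_card_fiberwise (f := fun c : (Fin n → Fin 3) × (Fin n → Fin 3) => ones c.1) (t := univ) (fun _ _ => mem_coe.2 (mem_univ _))]
  refine sum_congr rfl fun S _ => ?_
  rw [sq, ← card_product]
  congr 1
  ext ⟨c, c'⟩
  simp only [mem_filter, mem_product]
  constructor
  · rintro ⟨⟨⟨h1, h2⟩, h3⟩, h4⟩
    exact ⟨⟨h1, h4⟩, ⟨h2, h3 ▸ h4⟩⟩
  · rintro ⟨⟨h1, h2⟩, ⟨h3, h4⟩⟩
    exact ⟨⟨⟨h1, h3⟩, h2.trans h4.symm⟩, h2⟩

lemma sig_types {n m : ℕ} (hm : 1 ≤ m) :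
    sig (types n (2 * m - 1)) = ∑ S : {S : Finset (Fin n) // Odd S.card}, mult n m S.1 ^ 2 := by
  classical
  rw [sig_mult]
  have h1 : ∀ S : Finset (Fin n), ¬ Odd S.card → ((types n (2 * m - 1)).filter fun c => ones c = S).card = 0 := by
    intro S hS
    rw [card_eq_zero, filter_eq_empty_iff]
    intro c hc h
    exact hS (h ▸ (types_odd hm hc).2)
  rw [← sum_subtype (s := (univ : Finset (Finset (Fin n))).filter (fun S => Odd S.card)) (p := fun S => Odd S.card) (fun S => by simp)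
    (fun S : Finset (Fin n) => mult n m S ^ 2), sum_filter]
  refine sum_congr rfl fun S _ => ?_
  split_ifs with h
  · rfl
  · rw [h1 S h]
    norm_num

/-- the exceptions -/
theorem rank_all (K : Type) [Field K] [NumberField K] (n : ℕ) (g r : Fin n → ℕ) (hg : ∀ j, 1 ≤ g j) (hr : ∀ j, r j ≤ g j) (ε : ℝ) (hε : 0 < ε) :
    ∃ X₁ : ℕ, ∀ X : ℕ, X₁ ≤ X → ∀ (b : Fin (Module.finrank ℚ K) → 𝓞 K), (∀ x : 𝓞 K, ∃ a : Fin (Module.finrank ℚ K) → ℤ, x = ∑ j, (a j : 𝓞 K) * b j) →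
    ∀ (N : Ix g r × Fin (Module.finrank ℚ K) → ℤ) (L : Ix g r × Fin (Module.finrank ℚ K) → ℕ), (∀ k, (X : ℝ) ≤ L k) →
    ∀ E : Finset (Ix g r × Fin (Module.finrank ℚ K) → ℤ), E ⊆ Q282.GK.kbox N L →
      (∀ ν ∈ E, ¬ ∀ j, Ok K (r := r j) (m := 2 * g j + 1 - r j) (fun i => Q282.GK.comb b ν ⟨j, i⟩)) →
      (E.card : ℝ) / ∏ k, (L k : ℝ) ≤ ε := by
  classical
  have hrk := fun j : Fin n => rank_J K (g j) (r j) (2 * g j + 1 - r j) (by have := hr j; omega) (hr j) (hg j) 1 one_pos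
  choose Cr hCr hrank using hrk
  obtain ⟨C, hC⟩ : ∃ C : ℝ, C = ∑ j, Cr j := ⟨_, rfl⟩
  have hC0 : 0 ≤ C := by
    rw [hC]
    exact sum_nonneg fun j _ => hCr j
  obtain ⟨X₁, hX₁⟩ := Filter.eventually_atTop.1 (Q282.BP.loglog_tendsto.eventually_ge_atTop (C / ε + 1))
  refine ⟨max 16 X₁, fun X hX b hb N L hL E hE hE2 => ?_⟩
  have hX16 : 16 ≤ X := (le_max_left _ _).trans hX
  have hX0 : (16 : ℝ) ≤ X := by exact_mod_cast hX16
  have hll := hX₁ X ((le_max_right _ _).trans hX)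
  have hP0 : 0 < ∏ k, (L k : ℝ) := prod_pos fun k _ => by linarith [hL k]
  obtain ⟨ℓ, hℓ⟩ : ∃ ℓ : ℝ, ℓ = (Real.log (Real.log X)) ^ (-1 : ℝ) := ⟨_, rfl⟩
  obtain ⟨E₂, hE₂⟩ : ∃ E₂ : Fin n → Finset (Ix g r × Fin (Module.finrank ℚ K) → ℤ), E₂ = fun j =>
      (Q282.GK.kbox N L).filter fun ν => ¬ Ok K (r := r j) (m := 2 * g j + 1 - r j) (fun i => Q282.GK.comb b ν ⟨j, i⟩) := ⟨_, rfl⟩
  have h2 : ∀ j : Fin n, ((E₂ j).card : ℝ) ≤ Cr j * ℓ * ∏ k, (L k : ℝ) := by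
    intro j
    obtain ⟨e, he⟩ : ∃ e : Idx (r j) (2 * g j + 1 - r j) × Fin (Module.finrank ℚ K) → Ix g r × Fin (Module.finrank ℚ K),
        e = fun k => (⟨j, k.1⟩, k.2) := ⟨_, rfl⟩
    have hinj : Function.Injective e := by
      rintro ⟨k, l⟩ ⟨k', l'⟩ h
      rw [he] at h
      have h3 : (⟨j, k⟩ : Ix g r) = ⟨j, k'⟩ := congrArg Prod.fst h
      have h4 : l = l' := congrArg Prod.snd h
      rw [h4]
      have h5 : k = k' := eq_of_heq (Sigma.mk.inj h3).2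
      rw [h5]
    have hm := kbox_marg e hinj N L (fun ν' => ¬ Ok K (r := r j) (m := 2 * g j + 1 - r j) (Q282.GK.comb b ν'))
    have hE : E₂ j = (Q282.GK.kbox N L).filter fun ν => (fun ν' => ¬ Ok K (r := r j) (m := 2 * g j + 1 - r j) (Q282.GK.comb b ν'))
        (fun k => ν (e k)) := by
      rw [hE₂, he]
      rfl
    have h3 := hrank j b hb (fun k => N (e k)) (fun k => L (e k)) X X hX16 le_rfl (fun k => hL _)
      ((Q282.GK.kbox (fun k => N (e k)) (fun k => L (e k))).filter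
        fun ν' => ¬ Ok K (r := r j) (m := 2 * g j + 1 - r j) (Q282.GK.comb b ν')) (filter_subset _ _)
      (fun ν hν => (mem_filter.1 hν).2)
    rw [← hℓ] at h3
    have hP' : 0 < ∏ k, (L (e k) : ℝ) := prod_pos fun k _ => by linarith [hL (e k)]
    have h4 : ((E₂ j).card : ℝ) * ∏ k, (L (e k) : ℝ) =
        (((Q282.GK.kbox (fun k => N (e k)) (fun k => L (e k))).filter
          fun ν' => ¬ Ok K (r := r j) (m := 2 * g j + 1 - r j) (Q282.GK.comb b ν')).card : ℝ) * ∏ k, (L k : ℝ) := by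
      rw [hE]
      exact_mod_cast hm
    have h5 := mul_le_mul_of_nonneg_right h3 hP0.le
    rw [← h4] at h5
    have h6 : Cr j * (∏ k, (L (e k) : ℝ)) * ℓ * ∏ k, (L k : ℝ) = (Cr j * ℓ * ∏ k, (L k : ℝ)) * ∏ k, (L (e k) : ℝ) := by ring
    rw [h6] at h5
    exact le_of_mul_le_mul_right h5 hP'
  have h3 : E ⊆ univ.biUnion E₂ := by
    intro ν hν
    rw [mem_biUnion]
    have h4 := hE2 ν hν
    push Not at h4
    obtain ⟨j, hj⟩ := h4
    refine ⟨j, mem_univ _, ?_⟩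
    rw [hE₂]
    exact mem_filter.2 ⟨hE hν, hj⟩
  have h4 : (E.card : ℝ) ≤ ∑ j, ((E₂ j).card : ℝ) := by
    have h5 := (card_le_card h3).trans (card_biUnion_le (s := (univ : Finset (Fin n))) (t := E₂))
    exact_mod_cast h5
  rw [div_le_iff₀ hP0]
  refine (h4.trans (sum_le_sum fun j _ => h2 j)).trans ?_
  rw [← sum_mul, ← sum_mul, ← hC]
  refine mul_le_mul_of_nonneg_right ?_ hP0.le
  have hpos : 0 < Real.log (Real.log X) := by
    have : 0 ≤ C / ε := by positivity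
    linarith
  rw [hℓ, Real.rpow_neg_one, ← div_eq_mul_inv, div_le_iff₀ hpos]
  have h6 : C / ε ≤ Real.log (Real.log X) := by linarith
  rw [div_le_iff₀ hε] at h6
  linarith

end Q282.MJ
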